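import Pool.Agent.L5helper18.SN.Size

/-!
# The lower bounds
-/

set_option autoImplicit false

open Equiv Finset

namespace Pool.Agent.L5helper18.SN

lemma k_bound {ε : ℝ} (h0 : 0 < ε) {L q k : ℕ}
    (hL : (L : ℝ) < 4 ^ (k + 1) * (8 * (q + 1))) (hq : (q : ℝ) ≤ (L : ℝ) ^ (1 - ε))
    (h1 : ε ≤ 1) (hlog : 6 / ε ≤ Real.log L) : ε / 3 * Real.log L ≤ (k : ℝ) + 1 := by
  have hlpos : 0 < Real.log L := lt_of_lt_of_le (by positivity) hlog
  have hL1 : (1 : ℝ) < L := by
    by_contra hcon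
    push Not at hcon
    exact absurd (Real.log_nonpos (by positivity) hcon) (not_le.2 hlpos)
  have hLpos : (0 : ℝ) < L := by linarith
  have h2 : (1 : ℝ) ≤ (L : ℝ) ^ (1 - ε) := Real.one_le_rpow hL1.le (by linarith)
  have h3 : (L : ℝ) ^ ε < 16 * 4 ^ (k + 1) := by
    have h4 : (L : ℝ) ^ ε * (L : ℝ) ^ (1 - ε) = L := by
      rw [← Real.rpow_add hLpos]
      simp
    have h5 : (L : ℝ) ^ ε * (L : ℝ) ^ (1 - ε) < 16 * 4 ^ (k + 1) * (L : ℝ) ^ (1 - ε) := by
      rw [h4]
      refine hL.trans_le ?_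
      have h6 : (8 : ℝ) * (q + 1) ≤ 16 * (L : ℝ) ^ (1 - ε) := by linarith
      have h7 : (0 : ℝ) < 4 ^ (k + 1) := by positivity
      nlinarith
    exact lt_of_mul_lt_mul_right h5 (by positivity)
  have h4 : ε * Real.log L < Real.log 16 + (k + 1) * Real.log 4 := by
    have := Real.log_lt_log (by positivity) h3
    rw [Real.log_rpow hLpos, Real.log_mul (by norm_num) (by positivity), Real.log_pow] at this
    push_cast at this
    exact this
  have hl2 := Real.log_two_lt_d9
  have h16 : Real.log 16 = 4 * Real.log 2 := by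
    rw [show (16 : ℝ) = 2 ^ 4 by norm_num, Real.log_pow]
    norm_num
  have hl4 : Real.log 4 = 2 * Real.log 2 := by
    rw [show (4 : ℝ) = 2 ^ 2 by norm_num, Real.log_pow]
    norm_num
  rw [h16, hl4] at h4
  have h5 : 6 ≤ ε * Real.log L := by
    rw [div_le_iff₀ h0] at hlog
    linarith
  have hk : (0 : ℝ) ≤ (k : ℝ) + 1 := by positivity
  nlinarith

lemma num_bound {ε Λ : ℝ} (h0 : 0 < ε) (h1 : ε ≤ 1) {n k S : ℕ} (hn : 2 ^ 40 ≤ n) (hΛ : 0 ≤ Λ)
    (hΛn : Λ ^ 4 ≤ n) (hk : ε / 3 * Λ ≤ (k : ℝ) + 1)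
    (hS : (Nat.sqrt n) ^ (k + 1) ≤ S ∨ 2 ^ (Nat.sqrt n) ≤ S ^ 12) :
    (n : ℝ) ^ (ε / 9 * Λ) ≤ S := by
  set r := Nat.sqrt n with hr
  have hnR : (2 : ℝ) ^ 40 ≤ n := by exact_mod_cast hn
  have hnpos : (0 : ℝ) < n := by linarith [show (0 : ℝ) < 2 ^ 40 by norm_num]
  have hr1 : n < (r + 1) * (r + 1) := Nat.lt_succ_sqrt n
  have hr20 : 2 ^ 20 ≤ r := by
    rw [hr, Nat.le_sqrt]
    calc 2 ^ 20 * 2 ^ 20 = 2 ^ 40 := by norm_num
      _ ≤ n := hn
  rcases hS with hS | hS
  · -- first case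
    have h3 : n ≤ r ^ 3 := by
      have : (r + 1) * (r + 1) ≤ r ^ 3 := by nlinarith
      omega
    have h4 : (n : ℝ) ^ (1 / 3 : ℝ) ≤ r := by
      have h5 : (n : ℝ) ≤ (r : ℝ) ^ (3 : ℝ) := by
        rw [show (3 : ℝ) = ((3 : ℕ) : ℝ) by norm_num, Real.rpow_natCast]
        exact_mod_cast h3
      calc (n : ℝ) ^ (1 / 3 : ℝ) ≤ ((r : ℝ) ^ (3 : ℝ)) ^ (1 / 3 : ℝ) :=
            Real.rpow_le_rpow (by positivity) h5 (by norm_num)
        _ = r := by
            rw [← Real.rpow_mul (by positivity)]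
            norm_num
    calc (n : ℝ) ^ (ε / 9 * Λ) ≤ (n : ℝ) ^ ((1 / 3 : ℝ) * ((k : ℝ) + 1)) := by
          apply Real.rpow_le_rpow_of_exponent_le (by linarith [show (1 : ℝ) ≤ 2 ^ 40 by norm_num])
          linarith
      _ = ((n : ℝ) ^ (1 / 3 : ℝ)) ^ (k + 1) := by
          rw [Real.rpow_mul (by positivity), ← Real.rpow_natCast]
          push_cast
          rfl
      _ ≤ (r : ℝ) ^ (k + 1) := pow_le_pow_left₀ (by positivity) h4 _
      _ ≤ S := by exact_mod_cast hS
  · -- second case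
    have hSpos : 0 < S := by
      rcases Nat.eq_zero_or_pos S with h | h
      · rw [h] at hS
        have : 0 < 2 ^ r := by positivity
        simp at hS
      · exact h
    have hSR : (0 : ℝ) < S := by exact_mod_cast hSpos
    -- logarithms
    have h5 : (r : ℝ) * Real.log 2 ≤ 12 * Real.log S := by
      have h6 : ((2 : ℝ)) ^ r ≤ (S : ℝ) ^ 12 := by exact_mod_cast hS
      have := Real.log_le_log (by positivity) h6
      rw [Real.log_pow, Real.log_pow] at this
      push_cast at this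
      exact this
    set y : ℝ := (n : ℝ) ^ (1 / 8 : ℝ) with hy
    have hypos : 0 < y := by positivity
    have hy8 : y ^ 8 = n := by
      rw [hy, ← Real.rpow_natCast, ← Real.rpow_mul hnpos.le]
      norm_num
    have hy32 : 32 ≤ y := by
      by_contra hcon
      push Not at hcon
      have : y ^ 8 < 32 ^ 8 := pow_lt_pow_left₀ hcon hypos.le (by norm_num)
      rw [hy8] at this
      have h7 : (32 : ℝ) ^ 8 = 2 ^ 40 := by norm_num
      linarith
    have hlogn : Real.log n ≤ 8 * y := by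
      have := Real.log_le_rpow_div hnpos.le (show (0 : ℝ) < 1 / 8 by norm_num)
      rw [← hy] at this
      linarith
    have hlognpos : 0 ≤ Real.log n := Real.log_nonneg (by linarith [show (1 : ℝ) ≤ 2 ^ 40 by norm_num])
    have hΛy : Λ ≤ y ^ 2 := by
      by_contra hcon
      push Not at hcon
      have : (y ^ 2) ^ 4 < Λ ^ 4 := pow_lt_pow_left₀ hcon (by positivity) (by norm_num)
      rw [← pow_mul] at this
      norm_num at this
      rw [hy8] at this
      linarith
    have hry : y ^ 4 ≤ (r : ℝ) + 1 := by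
      by_contra hcon
      push Not at hcon
      have h7 : ((r : ℝ) + 1) ^ 2 < (y ^ 4) ^ 2 := pow_lt_pow_left₀ hcon (by positivity) (by norm_num)
      rw [← pow_mul] at h7
      norm_num at h7
      rw [hy8] at h7
      have h8 : (n : ℝ) < (r + 1) * (r + 1) := by exact_mod_cast hr1
      nlinarith
    have hl2 := Real.log_two_gt_d9
    have h6 : ε / 9 * Λ * Real.log n ≤ Real.log S := by
      have h7 : ε / 9 * Λ * Real.log n ≤ 1 / 9 * y ^ 2 * (8 * y) := by
        have h8 : ε / 9 * Λ ≤ 1 / 9 * y ^ 2 := by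
          have : ε * Λ ≤ 1 * y ^ 2 := mul_le_mul h1 hΛy hΛ (by norm_num)
          linarith
        exact mul_le_mul h8 hlogn hlognpos (by positivity)
      have h9 : 1 / 9 * y ^ 2 * (8 * y) * 12 ≤ (y ^ 4 - 1) * 0.69 := by
        have h10 : y ^ 4 = y ^ 3 * y := by ring
        have h11 : 32 * y ^ 3 ≤ y ^ 4 := by rw [h10]; nlinarith [pow_pos hypos 3]
        have h12 : (32 : ℝ) ^ 3 ≤ y ^ 3 := pow_le_pow_left₀ (by norm_num) hy32 3
        have h13 : 1 / 9 * y ^ 2 * (8 * y) * 12 = 96 / 9 * y ^ 3 := by ring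
        rw [h13]
        linarith
      have h10 : (y ^ 4 - 1) * 0.69 ≤ (r : ℝ) * Real.log 2 := by
        have h11 : (0 : ℝ) ≤ y ^ 4 - 1 := by
          have : (32 : ℝ) ^ 4 ≤ y ^ 4 := pow_le_pow_left₀ (by norm_num) hy32 4
          linarith
        have h12 : y ^ 4 - 1 ≤ r := by linarith
        exact mul_le_mul h12 (by linarith) (by norm_num) (by positivity)
      linarith
    rw [← Real.log_rpow hnpos] at h6
    exact (Real.log_le_log_iff (by positivity) hSR).1 h6

/-- One set `D` of vertices which may be renamed. -/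
theorem lower_set {ε : ℝ} (h0 : 0 < ε) (h1 : ε ≤ 1) : ∃ n₀ : ℕ, ∀ (V : Type)
    (s t : V) (D : Finset V) (N : Network V) (L q : ℕ), s ≠ t → s ∉ D → t ∉ D →
    n₀ ≤ L → L ≤ D.card → (q : ℝ) ≤ (L : ℝ) ^ (1 - ε) → N.Reads D q →
    (∀ π : Perm V, (∀ v, v ∉ D → π v = v) → N.InvariantUnder π) →
    (∀ G, Tame G → Within G L s t → N.Accepts G) →
    (∀ G, Tame G → N.Accepts G → Connected G s t) →
    (D.card : ℝ) ^ (ε / 9 * Real.log L) ≤ N.size := by
  refine ⟨max (2 ^ 40) ⌈Real.exp (6 / ε)⌉₊, ?_⟩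
  intro V s t D N L q hst hs ht hL hLD hq hR hN hA hB
  classical
  have hL40 : 2 ^ 40 ≤ L := (le_max_left _ _).trans hL
  have hLexp : Real.exp (6 / ε) ≤ L := by
    have : ⌈Real.exp (6 / ε)⌉₊ ≤ L := (le_max_right _ _).trans hL
    exact Nat.ceil_le.1 this
  have hLpos : (0 : ℝ) < L := lt_of_lt_of_le (Real.exp_pos _) hLexp
  have hlog : 6 / ε ≤ Real.log L := (Real.le_log_iff_exp_le hLpos).2 hLexp
  have hn40 : 2 ^ 40 ≤ D.card := hL40.trans hLD
  have hnpos : (0 : ℝ) < D.card := by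
    have : (2 : ℝ) ^ 40 ≤ D.card := by exact_mod_cast hn40
    linarith [show (0 : ℝ) < 2 ^ 40 by norm_num]
  -- `8 (q + 1) ≤ L`
  have hq8 : 8 * (q + 1) ≤ L := by
    have h2 : (1 : ℝ) ≤ (L : ℝ) ^ (1 - ε) := Real.one_le_rpow (by
      have : (2 : ℝ) ^ 40 ≤ L := by exact_mod_cast hL40
      linarith [show (1 : ℝ) ≤ 2 ^ 40 by norm_num]) (by linarith)
    have h3 : Real.exp 6 ≤ (L : ℝ) ^ ε := by
      rw [Real.rpow_def_of_pos hLpos, Real.exp_le_exp]
      rw [div_le_iff₀ h0] at hlog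
      linarith
    have h4 : (16 : ℝ) ≤ Real.exp 6 := by
      have h5 : (6 : ℝ) + 1 ≤ Real.exp 6 := Real.add_one_le_exp 6
      have h6 : Real.exp 6 = Real.exp 3 * Real.exp 3 := by rw [← Real.exp_add]; norm_num
      have h7 : (3 : ℝ) + 1 ≤ Real.exp 3 := Real.add_one_le_exp 3
      rw [h6]
      nlinarith
    have h5 : (L : ℝ) ^ ε * (L : ℝ) ^ (1 - ε) = L := by
      rw [← Real.rpow_add hLpos]
      simp
    have h6 : (8 : ℝ) * (q + 1) ≤ L := by
      rw [← h5]
      have : (8 : ℝ) * (q + 1) ≤ 16 * (L : ℝ) ^ (1 - ε) := by linarith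
      refine this.trans ?_
      exact mul_le_mul_of_nonneg_right (h4.trans h3) (by positivity)
    exact_mod_cast h6
  set M0 := L / (8 * (q + 1)) with hM0
  have hM0pos : 1 ≤ M0 := by
    rw [hM0, Nat.le_div_iff_mul_le (by omega)]
    omega
  set k := Nat.log 4 M0 with hk
  have hk1 : 4 ^ k ≤ M0 := Nat.pow_log_le_self 4 (by omega)
  have hk2 : M0 < 4 ^ (k + 1) := Nat.lt_pow_succ_log_self (by norm_num) M0
  have hk3 : 4 ^ k * (8 * (q + 1)) ≤ L := by
    calc 4 ^ k * (8 * (q + 1)) ≤ M0 * (8 * (q + 1)) := Nat.mul_le_mul_right _ hk1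
      _ ≤ L := Nat.div_mul_le_self _ _
  have hk4 : L < 4 ^ (k + 1) * (8 * (q + 1)) :=
    (Nat.div_lt_iff_lt_mul (by omega)).1 hk2
  set m := 4 ^ k * (q + 1) with hm
  have hkm : k < 4 ^ k := Nat.lt_pow_self (by norm_num)
  have h8m : 8 * m ≤ L := by rw [hm]; linarith
  have hqm : q + 1 ≤ m := Nat.le_mul_of_pos_left _ (by positivity)
  have h4m : 4 ^ k ≤ m := Nat.le_mul_of_pos_right _ (by omega)
  obtain ⟨e⟩ : Nonempty (Fin m × Bool ↪ {v // v ∈ D}) := by
    apply Function.Embedding.nonempty_of_card_le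
    rw [Fintype.card_coe, Fintype.card_prod, Fintype.card_fin, Fintype.card_bool]
    omega
  set col : {v // v ∈ D} → Unit := fun _ => () with hcol
  have hcls : ∀ c, Fintype.card (Cls col c) = D.card := by
    intro c
    rw [Fintype.card_subtype, filter_true_of_mem (fun _ _ => rfl), card_univ, Fintype.card_coe]
  have hsym : N.Symm col := Network.symm_of fun π hπ _ => hN π hπ
  have hcon := not_connected_gB (m := m) e.injective hs ht hst
  obtain ⟨x, hx⟩ := exists_large (col := col) (q := q) (k := k) (m := m) (e := e) hs ht hsym hR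
    e.injective (fun _ _ => rfl) (by rw [pow_mul, hm]; norm_num) (by
      intro c
      rw [hcls]
      have h2 : (univ.filter fun p => col (e p) = c).card ≤ 2 * m := by
        refine (card_filter_le _ _).trans ?_
        rw [card_univ, Fintype.card_prod, Fintype.card_fin, Fintype.card_bool]
        omega
      omega)
    (hA _ (tame_gA e.injective hs ht hst) (within_gA.mono (by omega)))
    (fun h => hcon (hB _ (tame_gB e.injective hs ht hst) h))
  have hsize := size_ge hsym hx (n := D.card) (fun c => (hcls c).ge) (by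
    have : (4 : ℕ) ≤ 2 ^ 40 := by norm_num
    omega)
  have hlogL : 0 ≤ Real.log L := le_trans (by positivity) hlog
  refine num_bound h0 h1 hn40 hlogL ?_ (k_bound h0 ?_ hq h1 hlog) hsize
  · -- `(log L)^4 ≤ |D|`
    have h2 : Real.log L ≤ Real.log D.card := Real.log_le_log hLpos (by exact_mod_cast hLD)
    set y : ℝ := (D.card : ℝ) ^ (1 / 8 : ℝ) with hy
    have hypos : 0 < y := by positivity
    have hy8 : y ^ 8 = D.card := by
      rw [hy, ← Real.rpow_natCast, ← Real.rpow_mul hnpos.le]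
      norm_num
    have hy32 : 32 ≤ y := by
      by_contra hcon
      push Not at hcon
      have : y ^ 8 < 32 ^ 8 := pow_lt_pow_left₀ hcon hypos.le (by norm_num)
      rw [hy8] at this
      have h7 : (32 : ℝ) ^ 8 = 2 ^ 40 := by norm_num
      have : (2 : ℝ) ^ 40 ≤ D.card := by exact_mod_cast hn40
      linarith
    have hlogn : Real.log D.card ≤ 8 * y := by
      have := Real.log_le_rpow_div hnpos.le (show (0 : ℝ) < 1 / 8 by norm_num)
      rw [← hy] at this
      linarith
    have h3 : Real.log L ≤ y ^ 2 := by nlinarith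
    calc Real.log L ^ 4 ≤ (y ^ 2) ^ 4 := pow_le_pow_left₀ hlogL h3 4
      _ = y ^ 8 := by ring
      _ = D.card := hy8
  · have : ((L : ℕ) : ℝ) < ((4 ^ (k + 1) * (8 * (q + 1)) : ℕ) : ℝ) := by exact_mod_cast hk4
    push_cast at this
    exact this

/-- Independent renamings of the levels. -/
theorem lower_layered {ε : ℝ} (h0 : 0 < ε) (h1 : ε ≤ 1) : ∃ n₀ : ℕ, ∀ (V : Type)
    [Fintype V] (lev : V → ℕ) (s t : V) (N : Network V) (L n q : ℕ),
    lev s = 0 → lev t = L + 1 → n₀ ≤ L → n₀ ≤ n → Real.log L ^ 4 ≤ n →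
    (∀ i, 1 ≤ i → i ≤ L → n ≤ (univ.filter fun v => lev v = i).card) →
    2 * q ≤ n → (q : ℝ) ≤ (L : ℝ) ^ (1 - ε) →
    N.Reads (univ.filter fun v => 1 ≤ lev v ∧ lev v ≤ L) q →
    (∀ π : Perm V, (∀ v, lev (π v) = lev v) → (∀ v, lev v = 0 ∨ L < lev v → π v = v) →
      N.InvariantUnder π) →
    (∀ G, Layered lev G → Tame G → Connected G s t → N.Accepts G) →
    (∀ G, Layered lev G → Tame G → N.Accepts G → Connected G s t) →
    (n : ℝ) ^ (ε / 9 * Real.log L) ≤ N.size := by
  refine ⟨max (2 ^ 40) ⌈Real.exp (6 / ε)⌉₊, ?_⟩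
  intro V _ lev s t N L n q hs0 ht0 hL hn hlogn hlev hqn hq hR hN hA hB
  classical
  have hL40 : 2 ^ 40 ≤ L := (le_max_left _ _).trans hL
  have hn40 : 2 ^ 40 ≤ n := (le_max_left _ _).trans hn
  have hLexp : Real.exp (6 / ε) ≤ L := by
    have : ⌈Real.exp (6 / ε)⌉₊ ≤ L := (le_max_right _ _).trans hL
    exact Nat.ceil_le.1 this
  have hLpos : (0 : ℝ) < L := lt_of_lt_of_le (Real.exp_pos _) hLexp
  have hlog : 6 / ε ≤ Real.log L := (Real.le_log_iff_exp_le hLpos).2 hLexp
  have hlogL : 0 ≤ Real.log L := le_trans (by positivity) hlog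
  have hst : s ≠ t := by
    rintro rfl
    omega
  set D : Finset V := univ.filter fun v => 1 ≤ lev v ∧ lev v ≤ L with hD
  have hDmem : ∀ v, v ∈ D ↔ 1 ≤ lev v ∧ lev v ≤ L := fun v => by
    rw [hD, mem_filter]
    simp
  have hs : s ∉ D := by
    rw [hDmem, hs0]
    omega
  have ht : t ∉ D := by
    rw [hDmem, ht0]
    omega
  -- `q + 1 ≤ L`
  have hq8 : q + 1 ≤ L := by
    have h3 : Real.exp 6 ≤ (L : ℝ) ^ ε := by
      rw [Real.rpow_def_of_pos hLpos, Real.exp_le_exp]
      rw [div_le_iff₀ h0] at hlog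
      linarith
    have h4 : (2 : ℝ) ≤ Real.exp 6 := by
      have h5 : (6 : ℝ) + 1 ≤ Real.exp 6 := Real.add_one_le_exp 6
      linarith
    have h2 : (1 : ℝ) ≤ (L : ℝ) ^ (1 - ε) := Real.one_le_rpow (by
      have : (2 : ℝ) ^ 40 ≤ L := by exact_mod_cast hL40
      linarith [show (1 : ℝ) ≤ 2 ^ 40 by norm_num]) (by linarith)
    have h5 : (L : ℝ) ^ ε * (L : ℝ) ^ (1 - ε) = L := by
      rw [← Real.rpow_add hLpos]
      simp
    have h6 : ((q : ℝ) + 1) ≤ L := by
      rw [← h5]
      have : ((q : ℝ) + 1) ≤ 2 * (L : ℝ) ^ (1 - ε) := by linarith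
      refine this.trans ?_
      exact mul_le_mul_of_nonneg_right (h4.trans h3) (by positivity)
    exact_mod_cast h6
  set M0 := L / (q + 1) with hM0
  have hM0pos : 1 ≤ M0 := by
    rw [hM0, Nat.le_div_iff_mul_le (by omega)]
    omega
  set k := Nat.log 4 M0 with hk
  have hk1 : 4 ^ k ≤ M0 := Nat.pow_log_le_self 4 (by omega)
  have hk2 : M0 < 4 ^ (k + 1) := Nat.lt_pow_succ_log_self (by norm_num) M0
  have hk3 : 4 ^ k * (q + 1) ≤ L := by
    calc 4 ^ k * (q + 1) ≤ M0 * (q + 1) := Nat.mul_le_mul_right _ hk1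
      _ ≤ L := Nat.div_mul_le_self _ _
  have hk4 : L < 4 ^ (k + 1) * (q + 1) := (Nat.div_lt_iff_lt_mul (by omega)).1 hk2
  have hkL : 4 ^ k ≤ L := (Nat.le_mul_of_pos_right _ (by omega)).trans hk3
  have hkn : 4 * k + 8 ≤ n := by
    have h2 : (k : ℝ) ≤ Real.log L := by
      have h3 : Real.log ((4 : ℝ) ^ k) ≤ Real.log L := Real.log_le_log (by positivity) (by
        exact_mod_cast hkL)
      rw [Real.log_pow] at h3
      have h4 : Real.log 4 = 2 * Real.log 2 := by
        rw [show (4 : ℝ) = 2 ^ 2 by norm_num, Real.log_pow]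
        norm_num
      have h5 := Real.log_two_gt_d9
      rw [h4] at h3
      have h6 : (0 : ℝ) ≤ k := by positivity
      nlinarith
    have h3 : k ^ 4 ≤ n := by
      have : ((k : ℝ)) ^ 4 ≤ n := (pow_le_pow_left₀ (by positivity) h2 4).trans hlogn
      exact_mod_cast this
    by_contra hcon
    push Not at hcon
    have h4 : 2 ^ 37 ≤ k := by omega
    have h5 : (2 ^ 37) ^ 3 * k ≤ k ^ 3 * k := Nat.mul_le_mul_right _ (Nat.pow_le_pow_left h4 3)
    have h6 : k ^ 3 * k = k ^ 4 := by ring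
    have h7 : 5 * k ≤ (2 ^ 37) ^ 3 * k := Nat.mul_le_mul_right _ (by norm_num)
    have h8 : 8 ≤ k := le_trans (by norm_num) h4
    omega
  -- two vertices in each level
  have hex : ∀ j : Fin L, ∃ a b : V, lev a = (j : ℕ) + 1 ∧ lev b = (j : ℕ) + 1 ∧ a ≠ b := by
    intro j
    have h2 := hlev ((j : ℕ) + 1) (by omega) (by have := j.2; omega)
    have h3 : 1 < (univ.filter fun v => lev v = (j : ℕ) + 1).card := by
      have : (2 : ℕ) ≤ 2 ^ 40 := by norm_num
      omega
    obtain ⟨a, ha, b, hb, hab⟩ := Finset.one_lt_card.1 h3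
    exact ⟨a, b, (mem_filter.1 ha).2, (mem_filter.1 hb).2, hab⟩
  choose a b ha hb hab using hex
  have haD : ∀ j, a j ∈ D := fun j => by
    rw [hDmem, ha]
    have := j.2
    omega
  have hbD : ∀ j, b j ∈ D := fun j => by
    rw [hDmem, hb]
    have := j.2
    omega
  set e : Fin L × Bool → {v // v ∈ D} := fun p =>
    if p.2 then ⟨a p.1, haD _⟩ else ⟨b p.1, hbD _⟩ with he
  have hlevD : ∀ v : {v // v ∈ D}, lev v - 1 < L := by
    intro v
    have := (hDmem v.1).1 v.2
    omega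
  set col : {v // v ∈ D} → Fin L := fun v => ⟨lev v - 1, hlevD v⟩ with hcol
  have helev : ∀ j c, lev (e (j, c)) = (j : ℕ) + 1 := by
    intro j c
    rcases c with _ | _
    · simp [he, hb]
    · simp [he, ha]
  have hecol : ∀ j c, col (e (j, c)) = j := by
    intro j c
    refine Fin.ext ?_
    simp only [hcol, helev]
    omega
  have hinj : Function.Injective e := by
    rintro ⟨j, c⟩ ⟨j', c'⟩ h
    have h2 : j = j' := by
      rw [← hecol j c, ← hecol j' c', h]
    subst h2
    congr 1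
    rcases c with _ | _ <;> rcases c' with _ | _
    · rfl
    · exfalso
      simp only [he, Bool.false_eq_true, if_false, if_true, Subtype.mk.injEq] at h
      exact hab j h.symm
    · exfalso
      simp only [he, Bool.false_eq_true, if_false, if_true, Subtype.mk.injEq] at h
      exact hab j h
    · rfl
  have hcls : ∀ c, n ≤ Fintype.card (Cls col c) := by
    intro c
    refine (hlev ((c : ℕ) + 1) (by omega) (by have := c.2; omega)).trans ?_
    rw [← Fintype.card_subtype]
    refine Fintype.card_le_of_injective (fun v => (⟨⟨v.1, ?_⟩, ?_⟩ : Cls col c)) ?_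
    · rw [hDmem, v.2]
      have := c.2
      omega
    · refine Fin.ext ?_
      simp only [hcol, v.2]
      omega
    · intro v v' h
      simp only [Subtype.mk.injEq] at h
      exact Subtype.ext h
  have hsym : N.Symm col := by
    refine Network.symm_of fun π hπ hπ2 => hN π ?_ ?_
    · intro v
      by_cases hv : v ∈ D
      · obtain ⟨h', h3⟩ := hπ2 v hv
        have h4 := congrArg Fin.val h3
        simp only [hcol] at h4
        rw [hDmem] at hv h'
        omega
      · rw [hπ v hv]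
    · intro v hv
      apply hπ v
      rw [hDmem]
      omega
  have hcon := not_connected_gB (m := L) (e := e) hinj hs ht hst
  obtain ⟨x, hx⟩ := exists_large (col := col) (q := q) (k := k) (m := L) (e := e) hs ht hsym hR
    hinj (fun j c => by rw [hecol, hecol]) (by rw [pow_mul]; norm_num; exact hk3) (by
      intro c
      have h2 : (univ.filter fun p => col (e p) = c).card ≤ 2 := by
        have h3 : (univ.filter fun p => col (e p) = c) ⊆ {(c, true), (c, false)} := by
          rintro ⟨j, b'⟩ hj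
          rw [mem_filter, hecol] at hj
          obtain ⟨-, rfl⟩ := hj
          rcases b' with _ | _ <;> simp
        exact (card_le_card h3).trans card_le_two
      have := hcls c
      omega)
    (hA _ (layered_gA hs0 ht0 helev) (tame_gA hinj hs ht hst) within_gA.connected)
    (fun h => hcon (hB _ (layered_gB hs0 ht0 helev) (tame_gB hinj hs ht hst) h))
  have hsize := size_ge hsym hx (n := n) hcls (by
    have : (4 : ℕ) ≤ 2 ^ 40 := by norm_num
    omega)
  refine num_bound h0 h1 hn40 hlogL hlogn (k_bound h0 ?_ hq h1 hlog) hsize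
  have h2 : ((L : ℕ) : ℝ) < ((4 ^ (k + 1) * (q + 1) : ℕ) : ℝ) := by exact_mod_cast hk4
  push_cast at h2
  have h3 : (0 : ℝ) < 4 ^ (k + 1) * (q + 1) := by positivity
  linarith

end Pool.Agent.L5helper18.SN
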