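import Pool.Agent.L5helper18.SN.Asy

/-!
# The lower bound for independent renamings of the blocks of a partition
-/

set_option autoImplicit false

open Equiv Finset

namespace Pool.Agent.L5helper18.SN

lemma k_bound' {ε : ℝ} (h0 : 0 < ε) {L q k : ℕ}
    (hL : (L : ℝ) < 4 ^ (k + 1) * (16 * (q + 1))) (hq : (q : ℝ) ≤ (L : ℝ) ^ (1 - ε))
    (h1 : ε ≤ 1) (hlog : 8 / ε ≤ Real.log L) : ε / 3 * Real.log L ≤ (k : ℝ) + 1 := by
  have hlpos : 0 < Real.log L := lt_of_lt_of_le (by positivity) hlog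
  have hL1 : (1 : ℝ) < L := by
    by_contra hcon
    push Not at hcon
    exact absurd (Real.log_nonpos (by positivity) hcon) (not_le.2 hlpos)
  have hLpos : (0 : ℝ) < L := by linarith
  have h2 : (1 : ℝ) ≤ (L : ℝ) ^ (1 - ε) := Real.one_le_rpow hL1.le (by linarith)
  have h3 : (L : ℝ) ^ ε < 32 * 4 ^ (k + 1) := by
    have h4 : (L : ℝ) ^ ε * (L : ℝ) ^ (1 - ε) = L := by
      rw [← Real.rpow_add hLpos]
      simp
    have h5 : (L : ℝ) ^ ε * (L : ℝ) ^ (1 - ε) < 32 * 4 ^ (k + 1) * (L : ℝ) ^ (1 - ε) := by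
      rw [h4]
      refine hL.trans_le ?_
      have h6 : (16 : ℝ) * (q + 1) ≤ 32 * (L : ℝ) ^ (1 - ε) := by linarith
      have h7 : (0 : ℝ) < 4 ^ (k + 1) := by positivity
      nlinarith
    exact lt_of_mul_lt_mul_right h5 (by positivity)
  have h4 : ε * Real.log L < Real.log 32 + (k + 1) * Real.log 4 := by
    have := Real.log_lt_log (by positivity) h3
    rw [Real.log_rpow hLpos, Real.log_mul (by norm_num) (by positivity), Real.log_pow] at this
    push_cast at this
    exact this
  have hl2 := Real.log_two_lt_d9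
  have h16 : Real.log 32 = 5 * Real.log 2 := by
    rw [show (32 : ℝ) = 2 ^ 5 by norm_num, Real.log_pow]
    norm_num
  have hl4 : Real.log 4 = 2 * Real.log 2 := by
    rw [show (4 : ℝ) = 2 ^ 2 by norm_num, Real.log_pow]
    norm_num
  rw [h16, hl4] at h4
  have h5 : 8 ≤ ε * Real.log L := by
    rw [div_le_iff₀ h0] at hlog
    linarith
  have hk : (0 : ℝ) ≤ (k : ℝ) + 1 := by positivity
  nlinarith

/-- many disjoint pairs of vertices of the same colour, at most an eighth of each class -/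
lemma exists_pairs {α ι : Type} [Fintype α] [Fintype ι] [DecidableEq ι] (col : α → ι) {m : ℕ}
    (h8 : ∀ c, 8 ≤ Fintype.card {v // col v = c}) (hm : 16 * m ≤ Fintype.card α) :
    ∃ e : Fin m × Bool → α, Function.Injective e ∧ (∀ j b, col (e (j, b)) = col (e (j, true))) ∧
      ∀ c, 4 * (univ.filter fun p => col (e p) = c).card ≤ Fintype.card {v // col v = c} := by
  classical
  have hsum : ∑ c, Fintype.card {v // col v = c} = Fintype.card α := by
    rw [← Fintype.card_sigma]
    exact Fintype.card_congr (Equiv.sigmaFiberEquiv col)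
  have hle : m ≤ Fintype.card (Σ c : ι, Fin (Fintype.card {v // col v = c} / 8)) := by
    rw [Fintype.card_sigma]
    simp only [Fintype.card_fin]
    have h1 : ∑ c, Fintype.card {v // col v = c} ≤
        ∑ c, 16 * (Fintype.card {v // col v = c} / 8) := by
      refine sum_le_sum fun c _ => ?_
      have := h8 c
      omega
    rw [hsum, ← mul_sum] at h1
    omega
  obtain ⟨f⟩ : Nonempty (Fin m ↪ Σ c : ι, Fin (Fintype.card {v // col v = c} / 8)) := by
    apply Function.Embedding.nonempty_of_card_le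
    rw [Fintype.card_fin]
    exact hle
  have hlt : ∀ (c : ι) (i : Fin (Fintype.card {v // col v = c} / 8)) (b : Bool),
      2 * (i : ℕ) + b.toNat < Fintype.card {v // col v = c} := by
    intro c i b
    have h1 := i.2
    have h2 : b.toNat ≤ 1 := by cases b <;> simp
    omega
  set g : (Σ c : ι, Fin (Fintype.card {v // col v = c} / 8)) × Bool →
      Σ c : ι, {v // col v = c} := fun p =>
    ⟨p.1.1, (Fintype.equivFin {v // col v = p.1.1}).symm ⟨2 * (p.1.2 : ℕ) + p.2.toNat,
      hlt _ _ _⟩⟩ with hg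
  have hginj : Function.Injective g := by
    rintro ⟨⟨c, i⟩, b⟩ ⟨⟨c', i'⟩, b'⟩ h
    simp only [hg, Sigma.mk.injEq] at h
    obtain ⟨rfl, h⟩ := h
    have h2 := (Fintype.equivFin {v // col v = c}).symm.injective (eq_of_heq h)
    rw [Fin.mk.injEq] at h2
    have h3 : (i : ℕ) = i' ∧ b = b' := by
      cases b <;> cases b' <;> simp at h2 ⊢ <;> omega
    obtain ⟨h3, rfl⟩ := h3
    rw [Fin.ext h3]
  refine ⟨fun p => (g (f p.1, p.2)).2.1, ?_, ?_, ?_⟩
  · rintro ⟨j, b⟩ ⟨j', b'⟩ h
    have h1 : g (f j, b) = g (f j', b') := by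
      apply (Equiv.sigmaFiberEquiv col).injective
      exact h
    have h2 := hginj h1
    rw [Prod.mk.injEq] at h2
    rw [f.injective h2.1, h2.2]
  · intro j b
    exact (g (f j, b)).2.2.trans (g (f j, true)).2.2.symm
  · intro c
    change 4 * (univ.filter fun p : Fin m × Bool => col (g (f p.1, p.2)).2.1 = c).card ≤ _
    have h1 : (univ.filter fun p : Fin m × Bool => col (g (f p.1, p.2)).2.1 = c).card ≤
        (univ : Finset (Fin (Fintype.card {v // col v = c} / 8) × Bool)).card := by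
      refine card_le_card_of_injOn (fun p => if h : (f p.1).1 = c then (h ▸ (f p.1).2, p.2) else
        (⟨0, by have := h8 c; omega⟩, p.2)) (fun _ _ => mem_coe.2 (mem_univ _)) ?_
      rintro ⟨j, b⟩ hj ⟨j', b'⟩ hj' h
      rw [mem_coe, mem_filter] at hj hj'
      have h1 : (f j).1 = c := (g (f j, b)).2.2.symm.trans hj.2
      have h2 : (f j').1 = c := (g (f j', b')).2.2.symm.trans hj'.2
      simp only [h1, h2, dif_pos, Prod.mk.injEq] at h
      have h3 : f j = f j' := by
        refine Sigma.ext (h1.trans h2.symm) ?_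
        have h4 : HEq (h1 ▸ (f j).2 : Fin (Fintype.card {v // col v = c} / 8)) (f j).2 := by
          simp
        have h5 : HEq (h2 ▸ (f j').2 : Fin (Fintype.card {v // col v = c} / 8)) (f j').2 := by
          simp
        exact h4.symm.trans ((heq_of_eq h.1).trans h5)
      rw [f.injective h3, h.2]
    rw [card_univ, Fintype.card_prod, Fintype.card_fin, Fintype.card_bool] at h1
    omega

/-- The vertices of each block may be renamed independently. -/
theorem lower_blocks {ε : ℝ} (h0 : 0 < ε) (h1 : ε ≤ 1) : ∃ n₀ : ℕ, ∀ (V : Type)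
    (s t : V) (D : Finset V) (block : V → ℕ) (N : Network V) (L n q : ℕ),
    s ≠ t → s ∉ D → t ∉ D → n₀ ≤ L → L ≤ D.card → n₀ ≤ n → Real.log L ^ 4 ≤ n →
    (∀ v ∈ D, n ≤ (D.filter fun w => block w = block v).card) →
    8 * q ≤ n → (q : ℝ) ≤ (L : ℝ) ^ (1 - ε) → N.Reads D q →
    (∀ π : Perm V, (∀ v, v ∉ D → π v = v) → (∀ v, block (π v) = block v) →
      N.InvariantUnder π) →
    (∀ G, Tame G → Within G L s t → N.Accepts G) →
    (∀ G, Tame G → N.Accepts G → Connected G s t) →
    (n : ℝ) ^ (ε / 9 * Real.log L) ≤ N.size := by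
  refine ⟨max (2 ^ 40) ⌈Real.exp (8 / ε)⌉₊, ?_⟩
  intro V s t D block N L n q hst hs ht hL hLD hn hlogn hblock hqn hq hR hN hA hB
  classical
  have hL40 : 2 ^ 40 ≤ L := (le_max_left _ _).trans hL
  have hn40 : 2 ^ 40 ≤ n := (le_max_left _ _).trans hn
  have hLexp : Real.exp (8 / ε) ≤ L := by
    have : ⌈Real.exp (8 / ε)⌉₊ ≤ L := (le_max_right _ _).trans hL
    exact Nat.ceil_le.1 this
  have hLpos : (0 : ℝ) < L := lt_of_lt_of_le (Real.exp_pos _) hLexp
  have hlog : 8 / ε ≤ Real.log L := (Real.le_log_iff_exp_le hLpos).2 hLexp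
  have hlogL : 0 ≤ Real.log L := le_trans (by positivity) hlog
  -- `16 (q + 1) ≤ L`
  have hq16 : 16 * (q + 1) ≤ L := by
    have h2 : (1 : ℝ) ≤ (L : ℝ) ^ (1 - ε) := Real.one_le_rpow (by
      have : (2 : ℝ) ^ 40 ≤ L := by exact_mod_cast hL40
      linarith [show (1 : ℝ) ≤ 2 ^ 40 by norm_num]) (by linarith)
    have h3 : Real.exp 8 ≤ (L : ℝ) ^ ε := by
      rw [Real.rpow_def_of_pos hLpos, Real.exp_le_exp]
      rw [div_le_iff₀ h0] at hlog
      linarith
    have h4 : (32 : ℝ) ≤ Real.exp 8 := by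
      have h6 : Real.exp 8 = Real.exp 4 * Real.exp 4 * 1 := by rw [← Real.exp_add]; norm_num
      have h8 : Real.exp 4 = Real.exp 2 * Real.exp 2 := by rw [← Real.exp_add]; norm_num
      have h7 : (2 : ℝ) + 1 ≤ Real.exp 2 := Real.add_one_le_exp 2
      have h9 : (9 : ℝ) ≤ Real.exp 4 := by rw [h8]; nlinarith
      rw [h6]
      nlinarith
    have h5 : (L : ℝ) ^ ε * (L : ℝ) ^ (1 - ε) = L := by
      rw [← Real.rpow_add hLpos]
      simp
    have h6 : (16 : ℝ) * (q + 1) ≤ L := by
      rw [← h5]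
      have : (16 : ℝ) * (q + 1) ≤ 32 * (L : ℝ) ^ (1 - ε) := by linarith
      refine this.trans ?_
      exact mul_le_mul_of_nonneg_right (h4.trans h3) (by positivity)
    exact_mod_cast h6
  set M0 := L / (16 * (q + 1)) with hM0
  have hM0pos : 1 ≤ M0 := by
    rw [hM0, Nat.le_div_iff_mul_le (by omega)]
    omega
  set k := Nat.log 4 M0 with hk
  have hk1 : 4 ^ k ≤ M0 := Nat.pow_log_le_self 4 (by omega)
  have hk2 : M0 < 4 ^ (k + 1) := Nat.lt_pow_succ_log_self (by norm_num) M0
  have hk3 : 4 ^ k * (16 * (q + 1)) ≤ L := by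
    calc 4 ^ k * (16 * (q + 1)) ≤ M0 * (16 * (q + 1)) := Nat.mul_le_mul_right _ hk1
      _ ≤ L := Nat.div_mul_le_self _ _
  have hk4 : L < 4 ^ (k + 1) * (16 * (q + 1)) :=
    (Nat.div_lt_iff_lt_mul (by omega)).1 hk2
  set m := 4 ^ k * (q + 1) with hm
  have h16m : 16 * m ≤ L := by rw [hm]; linarith
  have hmpos : 1 ≤ m := Nat.mul_pos (by positivity) (by omega)
  have hkL : 4 ^ k ≤ L := by
    have : 4 ^ k ≤ m := Nat.le_mul_of_pos_right _ (by omega)
    omega
  have hkn : 4 * k + 8 ≤ n := by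
    have h2 : (k : ℝ) ≤ Real.log L := by
      have h3 : Real.log ((4 : ℝ) ^ k) ≤ Real.log L := Real.log_le_log (by positivity) (by
        exact_mod_cast hkL)
      rw [Real.log_pow] at h3
      have h4 : Real.log 4 = 2 * Real.log 2 := by
        rw [show (4 : ℝ) = 2 ^ 2 by norm_num, Real.log_pow]
        norm_num
      have h5 := Real.log_two_gt_d9
      rw [h4] at h3
      have h6 : (0 : ℝ) ≤ k := by positivity
      nlinarith
    have h3 : k ^ 4 ≤ n := by
      have : ((k : ℝ)) ^ 4 ≤ n := (pow_le_pow_left₀ (by positivity) h2 4).trans hlogn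
      exact_mod_cast this
    by_contra hcon
    push Not at hcon
    have h4 : 2 ^ 37 ≤ k := by omega
    have h5 : (2 ^ 37) ^ 3 * k ≤ k ^ 3 * k := Nat.mul_le_mul_right _ (Nat.pow_le_pow_left h4 3)
    have h6 : k ^ 3 * k = k ^ 4 := by ring
    have h7 : 5 * k ≤ (2 ^ 37) ^ 3 * k := Nat.mul_le_mul_right _ (by norm_num)
    have h8 : 8 ≤ k := le_trans (by norm_num) h4
    omega
  -- the blocks
  set col : {v // v ∈ D} → {c // c ∈ D.image block} := fun v =>
    ⟨block v, mem_image_of_mem _ v.2⟩ with hcol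
  have hcls : ∀ c, n ≤ Fintype.card (Cls col c) := by
    rintro ⟨c, hc⟩
    obtain ⟨v, hv, rfl⟩ := mem_image.1 hc
    refine (hblock v hv).trans ?_
    rw [← Fintype.card_coe]
    refine Fintype.card_le_of_injective (fun w => (⟨⟨w.1, (mem_filter.1 w.2).1⟩, ?_⟩ :
      Cls col ⟨block v, hc⟩)) ?_
    · exact Subtype.ext (mem_filter.1 w.2).2
    · intro w w' h
      simp only [Subtype.mk.injEq] at h
      exact Subtype.ext h
  have hcls' : ∀ c, n ≤ Fintype.card {v // col v = c} := fun c =>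
    (hcls c).trans (Fintype.card_congr (Equiv.refl _)).le
  obtain ⟨e, hinj, hec, hcount⟩ := exists_pairs col (m := m) (fun c => by
      have := hcls' c
      have h8 : (8 : ℕ) ≤ 2 ^ 40 := by norm_num
      omega) (by
      rw [Fintype.card_coe]
      omega)
  have hsym : N.Symm col := by
    refine Network.symm_of fun π hπ hπ2 => hN π hπ ?_
    intro v
    by_cases hv : v ∈ D
    · obtain ⟨h', h3⟩ := hπ2 v hv
      exact congrArg Subtype.val h3
    · rw [hπ v hv]
  have hcon := not_connected_gB (m := m) (e := e) hinj hs ht hst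
  obtain ⟨x, hx⟩ := exists_large (col := col) (q := q) (k := k) (m := m) (e := e) hs ht hsym hR
    hinj hec (by rw [pow_mul, hm]; norm_num) (by
      intro c
      have h2 := hcls' c
      have h3 := hcount c
      have h4 : (univ.filter fun p => col (e p) = c).card + (2 * k + q) + 2 ≤
          Fintype.card {v // col v = c} := by omega
      exact h4.trans (Fintype.card_congr (Equiv.refl _)).le)
    (hA _ (tame_gA hinj hs ht hst) (within_gA.mono (by omega)))
    (fun h => hcon (hB _ (tame_gB hinj hs ht hst) h))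
  have hsize := size_ge hsym hx (n := n) hcls (by
    have : (4 : ℕ) ≤ 2 ^ 40 := by norm_num
    omega)
  refine num_bound h0 h1 hn40 hlogL hlogn (k_bound' h0 ?_ hq h1 hlog) hsize
  have h2 : ((L : ℕ) : ℝ) < ((4 ^ (k + 1) * (16 * (q + 1)) : ℕ) : ℝ) := by exact_mod_cast hk4
  push_cast at h2
  exact h2

end Pool.Agent.L5helper18.SN
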