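import Pool.Agent.L5helper18.SN.Net

/-!
# The path and the ladder
-/

set_option autoImplicit false

open Equiv Finset

namespace Pool.Agent.L5helper18.SN

section

variable {V : Type} [DecidableEq V] {D : Finset V} {m : ℕ}

/-- positions and rails of the vertices of the ladder -/
def Lab (s t : V) (e : Fin m × Bool → {v // v ∈ D}) (v : V) (p : ℕ) (b : Bool) : Prop :=
  (v = s ∧ p = 0 ∧ b = true) ∨ (v = t ∧ p = m + 1 ∧ b = false) ∨
    ∃ j : Fin m, v = (e (j, b) : V) ∧ p = (j : ℕ) + 1

/-- positions of the vertices of the path -/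
def Pos (s t : V) (e : Fin m × Bool → {v // v ∈ D}) (v : V) (p : ℕ) : Prop :=
  (v = s ∧ p = 0) ∨ (v = t ∧ p = m + 1) ∨ ∃ j : Fin m, v = (e (j, true) : V) ∧ p = (j : ℕ) + 1

/-- the ladder -/
def gB (s t : V) (e : Fin m × Bool → {v // v ∈ D}) : Graph V := fun u v =>
  ∃ p b b', Lab s t e u p b ∧ Lab s t e v (p + 1) b' ∧ (b = true → b' = true)

/-- the path -/
def gA (s t : V) (e : Fin m × Bool → {v // v ∈ D}) : Graph V := fun u v =>
  ∃ p, Pos s t e u p ∧ Pos s t e v (p + 1)

/-- the permutation moves the vertices in `X` of the path to the rails prescribed by `y`, and the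
other vertices in `X` to isolated vertices of the ladder -/
def Pres (e : Fin m × Bool → {v // v ∈ D}) (X : Finset {v // v ∈ D}) (y : ℕ → Prop)
    (π : Perm {v // v ∈ D}) : Prop :=
  (∀ j : Fin m, e (j, true) ∈ X → ∀ b : Bool, (b = true ↔ y ((j : ℕ) + 1)) →
    π (e (j, true)) = e (j, b)) ∧
  ∀ z ∈ X, (∀ j, z ≠ e (j, true)) → ∀ p, π z ≠ e p

/-- the vertex of the path at the position `p` is in `X` -/
def Has (e : Fin m × Bool → {v // v ∈ D}) (X : Finset {v // v ∈ D}) (p : ℕ) : Prop :=
  ∃ j : Fin m, (j : ℕ) + 1 = p ∧ e (j, true) ∈ X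

variable {s t : V} {e : Fin m × Bool → {v // v ∈ D}}

lemma lab_iff (he : Function.Injective e) (hs : s ∉ D) (ht : t ∉ D)
    {X : Finset {v // v ∈ D}} {y : ℕ → Prop} {π : Perm {v // v ∈ D}} (hπ : Pres e X y π)
    {u : V} (hu : ∀ h : u ∈ D, (⟨u, h⟩ : {v // v ∈ D}) ∈ X) (p : ℕ) (b : Bool) :
    Lab s t e (Perm.ofSubtype π u) p b ↔
      (Pos s t e u p ∧ (b = true ↔ (p = 0 ∨ (p ≠ m + 1 ∧ y p)))) := by
  by_cases hD : u ∈ D
  · have hz := hu hD
    have h1 : Perm.ofSubtype π u = (π ⟨u, hD⟩ : V) := Perm.ofSubtype_apply_of_mem π hD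
    set z : {v // v ∈ D} := ⟨u, hD⟩ with hzd
    have huz : u = (z : V) := rfl
    have hns : ∀ w : {v // v ∈ D}, (w : V) ≠ s := fun w h => hs (h ▸ w.2)
    have hnt : ∀ w : {v // v ∈ D}, (w : V) ≠ t := fun w h => ht (h ▸ w.2)
    have h2 : Lab s t e (Perm.ofSubtype π u) p b ↔ ∃ j : Fin m, π z = e (j, b) ∧ p = (j : ℕ) + 1 := by
      rw [h1]
      unfold Lab
      simp only [hns, hnt, false_and, false_or]
      constructor
      · rintro ⟨j, h, h'⟩
        exact ⟨j, Subtype.ext h, h'⟩
      · rintro ⟨j, h, h'⟩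
        exact ⟨j, congrArg Subtype.val h, h'⟩
    have h3 : Pos s t e u p ↔ ∃ j : Fin m, z = e (j, true) ∧ p = (j : ℕ) + 1 := by
      rw [huz]
      unfold Pos
      simp only [hns, hnt, false_and, false_or]
      constructor
      · rintro ⟨j, h, h'⟩
        exact ⟨j, Subtype.ext h, h'⟩
      · rintro ⟨j, h, h'⟩
        exact ⟨j, congrArg Subtype.val h, h'⟩
    rw [h2, h3]
    by_cases hj : ∃ j : Fin m, z = e (j, true)
    · obtain ⟨j, hj⟩ := hj
      classical
      have h4 : π z = e (j, decide (y ((j : ℕ) + 1))) := by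
        rw [hj]
        exact hπ.1 j (hj ▸ hz) _ (by simp)
      have hne : (j : ℕ) + 1 ≠ m + 1 := by have := j.2; omega
      constructor
      · rintro ⟨j', h5, h6⟩
        rw [h4] at h5
        have h7 := he h5
        rw [Prod.mk.injEq] at h7
        obtain ⟨rfl, h8⟩ := h7
        refine ⟨⟨j, hj, h6⟩, ?_⟩
        rw [← h8, h6]
        simp only [decide_eq_true_eq, Nat.add_eq_zero_iff, one_ne_zero, and_false, false_or]
        exact ⟨fun h => ⟨hne, h⟩, fun h => h.2⟩
      · rintro ⟨⟨j', h5, h6⟩, h7⟩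
        rw [hj] at h5
        have h8 := he h5
        rw [Prod.mk.injEq] at h8
        obtain ⟨rfl, -⟩ := h8
        refine ⟨j, ?_, h6⟩
        rw [h4]
        congr 2
        rw [h6] at h7
        rcases b with _ | _
        · simp only [Bool.false_eq_true, Nat.add_eq_zero_iff, one_ne_zero, and_false, false_or,
            false_iff, not_and] at h7
          simpa using h7 hne
        · simp only [true_iff, Nat.add_eq_zero_iff, one_ne_zero, and_false, false_or] at h7
          simpa using h7.2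
    · push Not at hj
      have h5 := hπ.2 z hz hj
      constructor
      · rintro ⟨j, h6, -⟩
        exact absurd h6 (h5 _)
      · rintro ⟨⟨j, h6, -⟩, -⟩
        exact absurd h6 (hj j)
  · have h1 : Perm.ofSubtype π u = u := Perm.ofSubtype_apply_of_not_mem π hD
    rw [h1]
    have h2 : ∀ w : {v // v ∈ D}, u ≠ (w : V) := fun w h => hD (h ▸ w.2)
    unfold Lab Pos
    simp only [h2, false_and, exists_false, or_false]
    constructor
    · rintro (⟨rfl, rfl, rfl⟩ | ⟨rfl, rfl, rfl⟩)
      · simp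
      · simp
    · rintro ⟨⟨rfl, rfl⟩ | ⟨rfl, rfl⟩, h⟩
      · left
        simpa using h
      · right
        simpa using h

/-- the truth of adjacency is preserved -/
lemma gA_iff (he : Function.Injective e) (hs : s ∉ D) (ht : t ∉ D) (hm : 1 ≤ m)
    {X : Finset {v // v ∈ D}} {y : ℕ → Prop} {π : Perm {v // v ∈ D}} (hπ : Pres e X y π)
    (h0 : Has e X 1 → y 1) (h1 : Has e X m → ¬ y m)
    (h2 : ∀ p, Has e X p → Has e X (p + 1) → y p → y (p + 1))
    {u v : V} (hu : ∀ h : u ∈ D, (⟨u, h⟩ : {v // v ∈ D}) ∈ X)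
    (hv : ∀ h : v ∈ D, (⟨v, h⟩ : {v // v ∈ D}) ∈ X) :
    gA s t e u v ↔ gB s t e (Perm.ofSubtype π u) (Perm.ofSubtype π v) := by
  unfold gA gB
  constructor
  · rintro ⟨p, hp, hp'⟩
    classical
    refine ⟨p, decide (p = 0 ∨ (p ≠ m + 1 ∧ y p)), decide (p + 1 = 0 ∨ (p + 1 ≠ m + 1 ∧ y (p + 1))),
      (lab_iff he hs ht hπ hu _ _).2 ⟨hp, by simp⟩, (lab_iff he hs ht hπ hv _ _).2 ⟨hp', by simp⟩, ?_⟩
    intro h
    rw [decide_eq_true_eq] at h ⊢
    right
    have key : ∀ w : V, (∀ h : w ∈ D, (⟨w, h⟩ : {v // v ∈ D}) ∈ X) → ∀ i, Pos s t e w i →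
        i ≠ 0 → i ≠ m + 1 → Has e X i := by
      intro w hw i hi hi0 him
      rcases hi with ⟨-, h⟩ | ⟨-, h⟩ | ⟨j, h, h'⟩
      · exact absurd h hi0
      · exact absurd h him
      · refine ⟨j, h'.symm, ?_⟩
        have hwD : w ∈ D := by rw [h]; exact (e (j, true)).2
        have := hw hwD
        have h3 : (⟨w, hwD⟩ : {v // v ∈ D}) = e (j, true) := Subtype.ext h
        rwa [h3] at this
    have hpm : p ≠ m + 1 := by
      intro hpm
      rcases hp' with ⟨-, h⟩ | ⟨-, h⟩ | ⟨j, -, h'⟩
      · omega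
      · omega
      · have := j.2; omega
    by_cases hp0 : p = 0
    · subst hp0
      have h3 := key v hv 1 hp' (by omega) (by omega)
      exact ⟨by omega, h0 h3⟩
    · have h3 := key u hu p hp hp0 hpm
      have hy : y p := by
        rcases h with h | h
        · exact absurd h hp0
        · exact h.2
      by_cases hpm' : p = m
      · subst hpm'
        exact absurd hy (h1 h3)
      · exact ⟨by omega, h2 p h3 (key v hv (p + 1) hp' (by omega) (by omega)) hy⟩
  · rintro ⟨p, b, b', hb, hb', -⟩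
    exact ⟨p, ((lab_iff he hs ht hπ hu _ _).1 hb).1, ((lab_iff he hs ht hπ hv _ _).1 hb').1⟩

lemma Pres.mono {X X' : Finset {v // v ∈ D}} {y y' : ℕ → Prop} {π : Perm {v // v ∈ D}}
    (h : Pres e X y π) (hX : X' ⊆ X) (hy : ∀ p, Has e X' p → (y p ↔ y' p)) : Pres e X' y' π := by
  refine ⟨fun j hj b hb => h.1 j (hX hj) b ?_, fun z hz => h.2 z (hX hz)⟩
  rw [hb, hy _ ⟨j, rfl, hj⟩]

/-- there are permutations of the prescribed kind -/
lemma exists_pres {ι : Type} [Fintype ι] [DecidableEq ι] {col : {v // v ∈ D} → ι}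
    (he : Function.Injective e) (hec : ∀ j b, col (e (j, b)) = col (e (j, true)))
    (X : Finset {v // v ∈ D}) (y : ℕ → Prop)
    (hX : ∀ c, (univ.filter fun p => col (e p) = c).card + X.card + 2 ≤ Fintype.card (Cls col c)) :
    ∃ g : GG col, (∀ c, Perm.sign (g c) = 1) ∧ Pres e X y (glue col g) := by
  classical
  set R : Finset {v // v ∈ D} := univ.image e with hR
  have hRc : ∀ c, (R.filter fun v => col v = c).card ≤
      (univ.filter fun p => col (e p) = c).card := by
    intro c
    have : R.filter (fun v => col v = c) = (univ.filter fun p => col (e p) = c).image e := by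
      ext v
      simp only [hR, mem_filter, mem_image, mem_univ, true_and]
      constructor
      · rintro ⟨⟨p, rfl⟩, h⟩
        exact ⟨p, h, rfl⟩
      · rintro ⟨p, h, rfl⟩
        exact ⟨⟨p, rfl⟩, h⟩
    rw [this]
    exact card_image_le
  have hemb : ∀ c, Nonempty ({v : {v // v ∈ D} // v ∈ X ∧ col v = c} ↪
      {v : {v // v ∈ D} // v ∉ R ∧ col v = c}) := by
    intro c
    apply Function.Embedding.nonempty_of_card_le
    have h1 : Fintype.card {v : {v // v ∈ D} // v ∈ X ∧ col v = c} ≤ X.card := by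
      rw [Fintype.card_subtype]
      exact card_le_card fun v hv => (mem_filter.1 hv).2.1
    have h2 : Fintype.card (Cls col c) ≤ Fintype.card {v : {v // v ∈ D} // v ∉ R ∧ col v = c} +
        (R.filter fun v => col v = c).card := by
      rw [Fintype.card_subtype, Fintype.card_subtype]
      refine (card_le_card ?_).trans (card_union_le _ _)
      intro v hv
      rw [mem_filter] at hv
      rw [mem_union, mem_filter, mem_filter]
      by_cases h : v ∈ R
      · exact Or.inr ⟨h, hv.2⟩
      · exact Or.inl ⟨mem_univ _, h, hv.2⟩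
    have := hX c
    have := hRc c
    omega
  obtain ⟨g⟩ : Nonempty (∀ c, {v : {v // v ∈ D} // v ∈ X ∧ col v = c} ↪
      {v : {v // v ∈ D} // v ∉ R ∧ col v = c}) := ⟨fun c => (hemb c).some⟩
  set f : {v // v ∈ D} → {v // v ∈ D} := fun z =>
    if h : ∃ j : Fin m, z = e (j, true) then e (h.choose, decide (y ((h.choose : ℕ) + 1)))
    else if h' : z ∈ X then (g (col z) ⟨z, h', rfl⟩).1 else z with hf
  have hf1 : ∀ j, f (e (j, true)) = e (j, decide (y ((j : ℕ) + 1))) := by
    intro j
    have h : ∃ j' : Fin m, e (j, true) = e (j', true) := ⟨j, rfl⟩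
    have h2 : h.choose = j := by
      have := he h.choose_spec
      rw [Prod.mk.injEq] at this
      exact this.1.symm
    simp only [hf]
    rw [dif_pos h, h2]
  have hf2 : ∀ z, (∀ j, z ≠ e (j, true)) → ∀ hz : z ∈ X, f z = (g (col z) ⟨z, hz, rfl⟩).1 := by
    intro z h hz
    simp only [hf]
    rw [dif_neg (by push Not; exact h), dif_pos hz]
  have hf3 : ∀ z, (∀ j, z ≠ e (j, true)) → z ∈ X → f z ∉ R := by
    intro z h hz
    rw [hf2 z h hz]
    exact (g (col z) ⟨z, hz, rfl⟩).2.1
  have hf4 : ∀ j, f (e (j, true)) ∈ R := fun j => by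
    rw [hf1]
    exact mem_image_of_mem _ (mem_univ _)
  have hf5 : ∀ z, (∀ j, z ≠ e (j, true)) → z ∈ X → col (f z) = col z := by
    intro z h hz
    rw [hf2 z h hz]
    exact (g (col z) ⟨z, hz, rfl⟩).2.2
  have hinj : Set.InjOn f X := by
    intro a ha b hb hab
    rw [mem_coe] at ha hb
    by_cases h1 : ∃ j, a = e (j, true)
    · obtain ⟨j, rfl⟩ := h1
      by_cases h2 : ∃ j', b = e (j', true)
      · obtain ⟨j', rfl⟩ := h2
        rw [hf1, hf1] at hab
        have := he hab
        rw [Prod.mk.injEq] at this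
        rw [this.1]
      · push Not at h2
        exact absurd (hab ▸ hf4 j) (hf3 b h2 hb)
    · push Not at h1
      by_cases h2 : ∃ j', b = e (j', true)
      · obtain ⟨j', rfl⟩ := h2
        exact absurd (hab ▸ hf4 j') (hf3 a h1 ha)
      · push Not at h2
        have hcol : col a = col b := by
          rw [← hf5 a h1 ha, ← hf5 b h2 hb, hab]
        have gen : ∀ z, (∀ j, z ≠ e (j, true)) → ∀ (hz : z ∈ X) (c : ι) (h : col z = c),
            f z = (g c ⟨z, hz, h⟩).1 := by
          intro z hz1 hz c h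
          subst h
          exact hf2 z hz1 hz
        rw [gen a h1 ha (col b) hcol, gen b h2 hb (col b) rfl] at hab
        have := (g (col b)).injective (Subtype.ext hab)
        exact congrArg Subtype.val this
  have hcolf : ∀ z ∈ X, col (f z) = col z := by
    intro z hz
    by_cases h : ∃ j, z = e (j, true)
    · obtain ⟨j, rfl⟩ := h
      rw [hf1]
      exact hec _ _
    · push Not at h
      exact hf5 z h hz
  obtain ⟨π, h1, h2⟩ := exists_ext X f hinj hcolf (by
    intro c
    have := hX c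
    have := card_le_card (filter_subset (fun v => col v = c) X)
    omega)
  refine ⟨π, h1, fun j hj b hb => ?_, fun z hz h p hp => ?_⟩
  · rw [h2 _ hj, hf1]
    congr 2
    rcases b with _ | _
    · simpa using hb
    · simpa using hb
  · have h3 := hf3 z h hz
    rw [← h2 z hz, hp] at h3
    exact h3 (mem_image_of_mem _ (mem_univ _))

/-- the ladder does not change when its isolated vertices are renamed -/
lemma rename_gB {ρ : Perm {v // v ∈ D}} (hρ : ∀ p, ρ (e p) = e p) (hs : s ∉ D) (ht : t ∉ D) :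
    rename (Perm.ofSubtype ρ) (gB s t e) = gB s t e := by
  have h1 : ∀ ρ : Perm {v // v ∈ D}, (∀ p, ρ (e p) = e p) → ∀ v p b, Lab s t e v p b →
      Lab s t e (Perm.ofSubtype ρ v) p b := by
    intro ρ hρ v p b h
    rcases h with ⟨rfl, h⟩ | ⟨rfl, h⟩ | ⟨j, rfl, h⟩
    · rw [Perm.ofSubtype_apply_of_not_mem ρ hs]
      exact Or.inl ⟨rfl, h⟩
    · rw [Perm.ofSubtype_apply_of_not_mem ρ ht]
      exact Or.inr (Or.inl ⟨rfl, h⟩)
    · rw [Perm.ofSubtype_apply_coe, hρ]
      exact Or.inr (Or.inr ⟨j, rfl, h⟩)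
  have h2 : ∀ v p b, Lab s t e ((Perm.ofSubtype ρ).symm v) p b ↔ Lab s t e v p b := by
    intro v p b
    constructor
    · intro h
      have := h1 ρ hρ _ _ _ h
      rwa [Equiv.apply_symm_apply] at this
    · intro h
      have h3 := h1 ρ⁻¹ (fun p => by rw [Perm.inv_eq_iff_eq]; exact (hρ p).symm) _ _ _ h
      rw [map_inv] at h3
      exact h3
  funext u v
  apply propext
  unfold rename gB
  simp only [h2]

end

end Pool.Agent.L5helper18.SN
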