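import Mathlib

/-!
# A linear functional for the reversible pebble game on a path

`Conf K B`: a set of configurations which contains the empty configuration, is closed under the
moves of the reversible pebble game with `K` pebbles, and none of whose members contains `2 ^ K`.
-/

set_option autoImplicit false

open Finset

namespace Pool.Agent.L5helper18.SN

/-- the pebbles at positions at most `2 ^ K` -/
def lo (K : ℕ) (B : Finset ℕ) : Finset ℕ := B.filter fun x => x ≤ 2 ^ K

/-- the other pebbles, shifted -/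
def hi (K : ℕ) (B : Finset ℕ) : Finset ℕ := (B.filter fun x => 2 ^ K < x).image fun x => x - 2 ^ K

/-- configurations of the pebble game with `K` pebbles -/
def Conf : ℕ → Finset ℕ → Prop
  | 0, B => B = ∅
  | K + 1, B => B.card ≤ K + 1 ∧ (hi K B = ∅ ∨ (¬ Conf K (lo K B) ∧ Conf K (hi K B)))

lemma mem_lo {K : ℕ} {B : Finset ℕ} {x : ℕ} : x ∈ lo K B ↔ x ∈ B ∧ x ≤ 2 ^ K := by
  simp [lo]

lemma mem_hi {K : ℕ} {B : Finset ℕ} {x : ℕ} : x ∈ hi K B ↔ 0 < x ∧ x + 2 ^ K ∈ B := by
  simp only [hi, mem_image, mem_filter]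
  constructor
  · rintro ⟨y, ⟨h1, h2⟩, rfl⟩
    refine ⟨by omega, ?_⟩
    rwa [Nat.sub_add_cancel h2.le]
  · rintro ⟨h1, h2⟩
    exact ⟨_, ⟨h2, by omega⟩, by omega⟩

lemma card_lo_add_hi (K : ℕ) (B : Finset ℕ) : (lo K B).card + (hi K B).card = B.card := by
  have h1 : (hi K B).card = (B.filter fun x => ¬ x ≤ 2 ^ K).card := by
    rw [hi, card_image_of_injOn]
    · congr 1
      ext x
      simp
    · intro x hx y hy h
      simp only [coe_filter, Set.mem_setOf_eq] at hx hy h
      omega
  rw [h1, lo, card_filter_add_card_filter_not]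

lemma lo_insert_of_le {K : ℕ} {B : Finset ℕ} {x : ℕ} (h : x ≤ 2 ^ K) :
    lo K (insert x B) = insert x (lo K B) := by
  ext y
  simp only [mem_lo, mem_insert]
  constructor
  · rintro ⟨rfl | h1, h2⟩
    · exact Or.inl rfl
    · exact Or.inr ⟨h1, h2⟩
  · rintro (rfl | h1)
    · exact ⟨Or.inl rfl, h⟩
    · exact ⟨Or.inr h1.1, h1.2⟩

lemma lo_insert_of_lt {K : ℕ} {B : Finset ℕ} {x : ℕ} (h : 2 ^ K < x) :
    lo K (insert x B) = lo K B := by
  ext y
  simp only [mem_lo, mem_insert]
  constructor
  · rintro ⟨rfl | h1, h2⟩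
    · omega
    · exact ⟨h1, h2⟩
  · exact fun h1 => ⟨Or.inr h1.1, h1.2⟩

lemma hi_insert_of_le {K : ℕ} {B : Finset ℕ} {x : ℕ} (h : x ≤ 2 ^ K) :
    hi K (insert x B) = hi K B := by
  ext y
  simp only [mem_hi, mem_insert]
  constructor
  · rintro ⟨h1, h2 | h2⟩
    · omega
    · exact ⟨h1, h2⟩
  · exact fun h1 => ⟨h1.1, Or.inr h1.2⟩

lemma hi_insert_of_lt {K : ℕ} {B : Finset ℕ} {x : ℕ} (h : 2 ^ K < x) :
    hi K (insert x B) = insert (x - 2 ^ K) (hi K B) := by
  ext y
  simp only [mem_hi, mem_insert]
  constructor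
  · rintro ⟨h1, h2 | h2⟩
    · left; omega
    · exact Or.inr ⟨h1, h2⟩
  · rintro (h1 | h1)
    · exact ⟨by omega, by left; omega⟩
    · exact ⟨h1.1, Or.inr h1.2⟩

lemma conf_empty (K : ℕ) : Conf K ∅ := by
  cases K with
  | zero => rfl
  | succ K => exact ⟨by simp, Or.inl (by simp [hi])⟩

lemma conf_not_top (K : ℕ) {B : Finset ℕ} (h : Conf K B) : 2 ^ K ∉ B := by
  induction K generalizing B with
  | zero =>
    have : B = ∅ := h
    simp [this]
  | succ K ih =>
    intro hmem
    have hh : 2 ^ K ∈ hi K B := mem_hi.2 ⟨by positivity, by rw [← two_mul, ← pow_succ']; exact hmem⟩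
    rcases h.2 with h1 | h1
    · rw [h1] at hh
      simp at hh
    · exact ih h1.2 hh

lemma conf_insert (K : ℕ) {B : Finset ℕ} {i : ℕ} (hi0 : i = 0 ∨ i ∈ B)
    (hc : (insert (i + 1) B).card ≤ K) : Conf K B ↔ Conf K (insert (i + 1) B) := by
  induction K generalizing B i with
  | zero =>
    have h1 : insert (i + 1) B = ∅ := card_eq_zero.1 (Nat.le_zero.1 hc)
    exact absurd h1 (insert_ne_empty _ _)
  | succ K ih =>
    have hB : B.card ≤ K + 1 := (card_le_card (subset_insert _ _)).trans hc
    have hsum := card_lo_add_hi K (insert (i + 1) B)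
    have h0 : 0 < 2 ^ K := by positivity
    have e1 : Conf (K + 1) B ↔ B.card ≤ K + 1 ∧
      (hi K B = ∅ ∨ (¬ Conf K (lo K B) ∧ Conf K (hi K B))) := Iff.rfl
    have e2 : Conf (K + 1) (insert (i + 1) B) ↔ (insert (i + 1) B).card ≤ K + 1 ∧
      (hi K (insert (i + 1) B) = ∅ ∨ (¬ Conf K (lo K (insert (i + 1) B)) ∧
        Conf K (hi K (insert (i + 1) B)))) := Iff.rfl
    rw [e1, e2]
    simp only [hB, hc, true_and]
    by_cases hle : i + 1 ≤ 2 ^ K
    · rw [hi_insert_of_le hle, lo_insert_of_le hle]
      rw [hi_insert_of_le hle, lo_insert_of_le hle] at hsum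
      by_cases hh : hi K B = ∅
      · simp [hh]
      · have hh' : 0 < (hi K B).card := card_pos.2 (nonempty_iff_ne_empty.2 hh)
        have hi1 : i = 0 ∨ i ∈ lo K B := by
          rcases hi0 with h | h
          · exact Or.inl h
          · exact Or.inr (mem_lo.2 ⟨h, by omega⟩)
        have := ih hi1 (by omega)
        rw [this]
    · rw [not_le] at hle
      rw [hi_insert_of_lt hle, lo_insert_of_lt hle]
      rw [hi_insert_of_lt hle, lo_insert_of_lt hle] at hsum
      have hiB : i ∈ B := by
        rcases hi0 with h | h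
        · omega
        · exact h
      by_cases hih : i = 2 ^ K
      · have hlo : i ∈ lo K B := mem_lo.2 ⟨hiB, by omega⟩
        have hn : ¬ Conf K (lo K B) := fun h => conf_not_top K h (hih ▸ hlo)
        have hpos : 0 < (lo K B).card := card_pos.2 ⟨i, hlo⟩
        have hx : i + 1 - 2 ^ K = 0 + 1 := by omega
        rw [hx] at hsum ⊢
        have := ih (B := hi K B) (i := 0) (Or.inl rfl) (by omega)
        rw [← this]
        simp only [hn, not_false_eq_true, true_and]
        constructor
        · rintro (h | h)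
          · right; rw [h]; exact conf_empty K
          · exact Or.inr h
        · rintro (h | h)
          · exact absurd h (insert_ne_empty _ _)
          · exact Or.inr h
      · have hih' : 2 ^ K < i := by omega
        have hmh : i - 2 ^ K ∈ hi K B := mem_hi.2 ⟨by omega, by rwa [Nat.sub_add_cancel hih'.le]⟩
        have hx : i + 1 - 2 ^ K = (i - 2 ^ K) + 1 := by omega
        rw [hx] at hsum ⊢
        have hne : hi K B ≠ ∅ := by
          rw [← nonempty_iff_ne_empty]
          exact ⟨_, hmh⟩
        by_cases hlo : Conf K (lo K B)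
        · simp [hlo, hne, insert_ne_empty]
        · have hpos : 0 < (lo K B).card := by
            rw [card_pos, nonempty_iff_ne_empty]
            intro h
            rw [h] at hlo
            exact hlo (conf_empty K)
          have := ih (B := hi K B) (i := i - 2 ^ K) (Or.inr hmh) (by omega)
          rw [← this]
          simp [hne, insert_ne_empty]

open Classical in
/-- the functional on real functions of sets of positions -/
noncomputable def ev (K : ℕ) (F : Finset ℕ → Prop) : ℤ :=
  ∑ B ∈ (Icc 1 (2 ^ K)).powerset, if Conf K B then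
    ∑ A ∈ B.powerset, (-1) ^ (B.card + A.card) * (if F A then (1 : ℤ) else 0) else 0

/-- `F` depends only on the part of the set in `C` -/
def Junta (C : Finset ℕ) (F : Finset ℕ → Prop) : Prop := ∀ A A', A ∩ C = A' ∩ C → (F A ↔ F A')

lemma Junta.mono {C C' : Finset ℕ} {F : Finset ℕ → Prop} (h : Junta C F) (hc : C ⊆ C') :
    Junta C' F := by
  intro A A' hA
  apply h
  have h1 : A ∩ C = (A ∩ C') ∩ C := by rw [inter_assoc, inter_eq_right.2 hc]
  have h2 : A' ∩ C = (A' ∩ C') ∩ C := by rw [inter_assoc, inter_eq_right.2 hc]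
  rw [h1, h2, hA]

/-- no pebble of `A` is followed by an empty position of `C` -/
def NonCrossing (K : ℕ) (C A : Finset ℕ) : Prop :=
  (1 ∈ C → 1 ∈ A) ∧ (2 ^ K ∈ C → 2 ^ K ∉ A) ∧ ∀ i, i ∈ C → i + 1 ∈ C → i ∈ A → i + 1 ∈ A

lemma ev_true (K : ℕ) : ev K (fun _ => True) = 1 := by
  classical
  unfold ev
  rw [sum_eq_single ∅]
  · simp [conf_empty]
  · intro B _ hB
    split_ifs with h
    · have h1 : ∀ A ∈ B.powerset, (-1 : ℤ) ^ (B.card + A.card) * (if True then (1 : ℤ) else 0) =
          (-1) ^ B.card * (-1) ^ A.card := by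
        intro A _
        rw [pow_add]; simp
      simp only [if_true] at h1 ⊢
      rw [sum_congr rfl h1, ← mul_sum, sum_powerset_neg_one_pow_card, if_neg hB, mul_zero]
    · rfl
  · intro h
    exact absurd (by simp) h

lemma ev_false (K : ℕ) : ev K (fun _ => False) = 0 := by
  classical
  unfold ev
  refine sum_eq_zero fun B _ => ?_
  simp

/-- the sum over supersets of `A` -/
lemma sum_sup_eq_zero {K : ℕ} {C A : Finset ℕ} (hC : C.card ≤ K) (hA : A ⊆ C)
    (h : ¬ NonCrossing K C A) :
    open Classical in
    ∑ B ∈ C.powerset.filter (fun B => A ⊆ B), (if Conf K B then (-1 : ℤ) ^ B.card else 0) = 0 := by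
  classical
  have key : ∀ i, (i = 0 ∨ i ∈ A) → i + 1 ∈ C → i + 1 ∉ A →
      ∑ B ∈ C.powerset.filter (fun B => A ⊆ B), (if Conf K B then (-1 : ℤ) ^ B.card else 0) = 0 := by
    intro i hi0 hiC hiA
    set g : Finset ℕ → Finset ℕ := fun B => if i + 1 ∈ B then B.erase (i + 1) else insert (i + 1) B
      with hg
    have hmem : ∀ B ∈ C.powerset.filter (fun B => A ⊆ B),
        g B ∈ C.powerset.filter (fun B => A ⊆ B) := by
      intro B hB
      rw [mem_filter, mem_powerset] at hB ⊢
      simp only [hg]
      split_ifs with h1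
      · refine ⟨(erase_subset _ _).trans hB.1, ?_⟩
        rw [subset_erase]
        exact ⟨hB.2, hiA⟩
      · exact ⟨insert_subset hiC hB.1, hB.2.trans (subset_insert _ _)⟩
    refine sum_involution (fun B _ => g B) ?_ ?_ hmem ?_
    · intro B hB
      rw [mem_filter, mem_powerset] at hB
      by_cases h1 : i + 1 ∈ B
      · have hgB : g B = B.erase (i + 1) := by simp only [hg]; rw [if_pos h1]
        have hiff : Conf K (B.erase (i + 1)) ↔ Conf K B := by
          have := conf_insert K (B := B.erase (i + 1)) (i := i) (by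
            rcases hi0 with h | h
            · exact Or.inl h
            · exact Or.inr (mem_erase.2 ⟨by omega, hB.2 h⟩)) (by
            rw [insert_erase h1]
            exact (card_le_card hB.1).trans hC)
          rwa [insert_erase h1] at this
        have hcard : B.card = (B.erase (i + 1)).card + 1 := (card_erase_add_one h1).symm
        change _ + (if Conf K (g B) then (-1 : ℤ) ^ (g B).card else 0) = 0
        rw [hgB, hcard]
        by_cases hc : Conf K B
        · rw [if_pos hc, if_pos (hiff.2 hc), pow_succ]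
          ring
        · rw [if_neg hc, if_neg (fun h => hc (hiff.1 h))]
          rfl
      · have hgB : g B = insert (i + 1) B := by simp only [hg]; rw [if_neg h1]
        have hiff : Conf K B ↔ Conf K (insert (i + 1) B) :=
          conf_insert K (B := B) (i := i) (by
            rcases hi0 with h | h
            · exact Or.inl h
            · exact Or.inr (hB.2 h))
            ((card_le_card (insert_subset hiC hB.1)).trans hC)
        have hcard : (insert (i + 1) B).card = B.card + 1 := card_insert_of_notMem h1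
        change _ + (if Conf K (g B) then (-1 : ℤ) ^ (g B).card else 0) = 0
        rw [hgB, hcard]
        by_cases hc : Conf K B
        · rw [if_pos hc, if_pos (hiff.1 hc), pow_succ]
          ring
        · rw [if_neg hc, if_neg (fun h => hc (hiff.2 h))]
          rfl
    · intro B hB _
      simp only [hg]
      split_ifs with h1
      · intro h2
        have : i + 1 ∈ B.erase (i + 1) := by rw [h2]; exact h1
        simp at this
      · intro h2
        apply h1
        rw [← h2]
        exact mem_insert_self _ _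
    · intro B hB
      simp only [hg]
      by_cases h1 : i + 1 ∈ B
      · rw [if_pos h1, if_neg (notMem_erase _ _), insert_erase h1]
      · rw [if_neg h1, if_pos (mem_insert_self _ _), erase_insert h1]
  unfold NonCrossing at h
  by_cases h1 : 1 ∈ C → 1 ∈ A
  · by_cases h2 : 2 ^ K ∈ C → 2 ^ K ∉ A
    · have h3 : ¬ ∀ i, i ∈ C → i + 1 ∈ C → i ∈ A → i + 1 ∈ A := fun h3 => h ⟨h1, h2, h3⟩
      push Not at h3
      obtain ⟨i, hi1, hi2, hi3, hi4⟩ := h3
      exact key i (Or.inr hi3) hi2 hi4
    · push Not at h2
      refine sum_eq_zero fun B hB => ?_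
      rw [mem_filter] at hB
      rw [if_neg]
      intro hc
      exact conf_not_top K hc (hB.2 h2.2)
  · push Not at h1
    exact key 0 (Or.inl rfl) h1.1 h1.2

/-- the functional takes the same value at two juntas which agree at all noncrossing sets -/
theorem ev_eq {K : ℕ} {C : Finset ℕ} (hCU : C ⊆ Icc 1 (2 ^ K)) (hC : C.card ≤ K)
    {F G : Finset ℕ → Prop} (hF : Junta C F) (hG : Junta C G)
    (h : ∀ A ⊆ C, NonCrossing K C A → (F A ↔ G A)) : ev K F = ev K G := by
  classical
  rw [← sub_eq_zero]
  unfold ev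
  rw [← sum_sub_distrib]
  set D : Finset ℕ → ℤ := fun A => (if F A then (1 : ℤ) else 0) - (if G A then 1 else 0) with hD
  have hDJ : ∀ A A', A ∩ C = A' ∩ C → D A = D A' := by
    intro A A' hA
    simp only [hD, hF A A' hA, hG A A' hA]
  have h1 : ∀ B ∈ (Icc 1 (2 ^ K)).powerset,
      ((if Conf K B then ∑ A ∈ B.powerset, (-1) ^ (B.card + A.card) * (if F A then (1 : ℤ) else 0)
        else 0) -
      if Conf K B then ∑ A ∈ B.powerset, (-1) ^ (B.card + A.card) * (if G A then (1 : ℤ) else 0)
        else 0) = if Conf K B then ∑ A ∈ B.powerset, (-1) ^ (B.card + A.card) * D A else 0 := by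
    intro B _
    split_ifs
    · rw [← sum_sub_distrib]
      refine sum_congr rfl fun A _ => ?_
      rw [← mul_sub]
    · simp
  rw [sum_congr rfl h1]
  have h2 : ∀ B ∈ (Icc 1 (2 ^ K)).powerset, B ∉ C.powerset →
      (if Conf K B then ∑ A ∈ B.powerset, (-1) ^ (B.card + A.card) * D A else 0) = 0 := by
    intro B _ hB
    rw [mem_powerset, not_subset] at hB
    obtain ⟨x, hxB, hxC⟩ := hB
    split_ifs
    · obtain ⟨B', hxB', rfl⟩ : ∃ B', x ∉ B' ∧ insert x B' = B :=
        ⟨B.erase x, notMem_erase _ _, insert_erase hxB⟩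
      rw [sum_powerset_insert hxB', ← sum_add_distrib]
      refine sum_eq_zero fun A hA => ?_
      rw [mem_powerset] at hA
      have hxA : x ∉ A := fun h => hxB' (hA h)
      have : D (insert x A) = D A := hDJ _ _ (by
        rw [insert_inter_of_notMem hxC])
      rw [this, card_insert_of_notMem hxB', card_insert_of_notMem hxA, pow_add, pow_add, pow_add,
        pow_add]
      ring
    · rfl
  rw [← sum_subset (powerset_mono.2 hCU) (fun B hB hB' => h2 B hB hB')]
  have h3 : ∀ B ∈ C.powerset,
      (if Conf K B then ∑ A ∈ B.powerset, (-1) ^ (B.card + A.card) * D A else 0) =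
      ∑ A ∈ C.powerset, if A ⊆ B then
        (-1) ^ A.card * D A * (if Conf K B then (-1 : ℤ) ^ B.card else 0) else 0 := by
    intro B hB
    rw [mem_powerset] at hB
    rw [← sum_filter]
    have : C.powerset.filter (fun A => A ⊆ B) = B.powerset := by
      ext A
      rw [mem_filter, mem_powerset, mem_powerset]
      exact ⟨fun h => h.2, fun h => ⟨h.trans hB, h⟩⟩
    rw [this]
    split_ifs
    · refine sum_congr rfl fun A _ => ?_
      rw [pow_add]
      ring
    · simp
  rw [sum_congr rfl h3, sum_comm]
  refine sum_eq_zero fun A hA => ?_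
  rw [mem_powerset] at hA
  by_cases hN : NonCrossing K C A
  · have : D A = 0 := by
      simp only [hD, h A hA hN, sub_self]
    simp [this]
  · rw [← sum_filter, ← mul_sum, sum_sup_eq_zero hC hA hN, mul_zero]

end Pool.Agent.L5helper18.SN
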