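import Pool.Agent.L5helper18.SN.Inst
import Pool.Agent.L5helper18.SN.Peb

/-!
# A symmetric network with small supports which accepts the path accepts the ladder
-/

set_option autoImplicit false

open Equiv Finset

namespace Pool.Agent.L5helper18.SN

/-- the block of the position `i`: blocks of length `q + 1`, the last block (number `M`) may be
longer -/
def blk (q M i : ℕ) : ℕ := min ((i + q) / (q + 1)) M

lemma blk_one {q M i : ℕ} (hM : 1 ≤ M) (h1 : 1 ≤ i) (h2 : i ≤ q + 1) : blk q M i = 1 := by
  have : (i + q) / (q + 1) = 1 := by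
    apply le_antisymm
    · rw [← Nat.lt_succ_iff, Nat.div_lt_iff_lt_mul (by omega)]
      omega
    · rw [Nat.le_div_iff_mul_le (by omega)]
      omega
  rw [blk, this]
  omega

lemma blk_last {q M m a : ℕ} (hm : M * (q + 1) ≤ m) (h : m - a ≤ q) : blk q M a = M := by
  have : M ≤ (a + q) / (q + 1) := by
    rw [Nat.le_div_iff_mul_le (by omega)]
    omega
  rw [blk]
  omega

lemma blk_pos {q M i : ℕ} (hM : 1 ≤ M) (h1 : 1 ≤ i) : 1 ≤ blk q M i := by
  have : 1 ≤ (i + q) / (q + 1) := by
    rw [Nat.le_div_iff_mul_le (by omega)]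
    omega
  rw [blk]
  omega

lemma blk_le {q M i : ℕ} : blk q M i ≤ M := min_le_right _ _

lemma blk_succ {q M a p : ℕ} (h1 : a ≤ p) (h2 : p - a ≤ q) :
    blk q M (p + 1) = blk q M a ∨ blk q M (p + 1) = blk q M a + 1 := by
  have h3 : (a + q) / (q + 1) ≤ (p + 1 + q) / (q + 1) := Nat.div_le_div_right (by omega)
  have h4 : (p + 1 + q) / (q + 1) ≤ (a + q + (q + 1)) / (q + 1) := Nat.div_le_div_right (by omega)
  rw [Nat.add_div_right _ (by omega)] at h4
  unfold blk
  omega

section

variable {V : Type} [DecidableEq V] {D : Finset V} {ι : Type} [Fintype ι] [DecidableEq ι]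
  (col : {v // v ∈ D} → ι) {m : ℕ}

/-- Is the node, with its support placed as prescribed by the set `A` of blocks, joined to the
source in the ladder? -/
def FF (N : Network V) (s t : V) (e : Fin m × Bool → {v // v ∈ D}) (q M : ℕ) (x : N.Node)
    (A : Finset ℕ) : Prop :=
  ∃ p ∈ N.aut col, (∀ c, Perm.sign (p.1 c) = 1) ∧
    Pres e (N.nsupp col x) (fun i => blk q M i ∈ A) (glue col p.1) ∧
    N.Reach (gB s t e) (p.2 x)

variable {col} {N : Network V} {s t : V} {e : Fin m × Bool → {v // v ∈ D}} {q M : ℕ}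

lemma FF_iff (hN : N.Symm col) (he : Function.Injective e) (hs : s ∉ D) (ht : t ∉ D)
    {x : N.Node} (hx : ∀ c, (univ.filter fun p => col (e p) = c).card + (N.nsupp col x).card + 2 ≤
      Fintype.card (Cls col c)) {A : Finset ℕ}
    {p : GG col × Perm N.Node} (hp : p ∈ N.aut col) (hsg : ∀ c, Perm.sign (p.1 c) = 1)
    (hpr : Pres e (N.nsupp col x) (fun i => blk q M i ∈ A) (glue col p.1)) :
    FF col N s t e q M x A ↔ N.Reach (gB s t e) (p.2 x) := by
  classical
  refine ⟨?_, fun h => ⟨p, hp, hsg, hpr, h⟩⟩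
  rintro ⟨p', hp', hsg', hpr', h⟩
  obtain ⟨g, σ⟩ := p
  obtain ⟨g', σ'⟩ := p'
  simp only at hsg hpr hsg' hpr' h ⊢
  set π := glue col g with hπ
  set π' := glue col g' with hπ'
  set S := N.nsupp col x with hS
  set R : Finset {v // v ∈ D} := univ.image e with hR
  have hRc : ∀ c, (R.filter fun v => col v = c).card ≤
      (univ.filter fun p => col (e p) = c).card := by
    intro c
    have : R.filter (fun v => col v = c) = (univ.filter fun p => col (e p) = c).image e := by
      ext v
      simp only [hR, mem_filter, mem_image, mem_univ, true_and]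
      constructor
      · rintro ⟨⟨p, rfl⟩, h⟩
        exact ⟨p, h, rfl⟩
      · rintro ⟨p, h, rfl⟩
        exact ⟨⟨p, rfl⟩, h⟩
    rw [this]
    exact card_image_le
  set Z : Finset {v // v ∈ D} := S.filter fun z => ∀ j, z ≠ e (j, true) with hZ
  set f : {v // v ∈ D} → {v // v ∈ D} := fun z => if z ∈ R then z else π (π'.symm z) with hf
  have hZR : ∀ z ∈ Z, π' z ∉ R := by
    intro z hz hmem
    rw [hZ, mem_filter] at hz
    obtain ⟨p, -, hp⟩ := mem_image.1 hmem
    exact hpr'.2 z hz.1 hz.2 p hp.symm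
  have hZR' : ∀ z ∈ Z, π z ∉ R := by
    intro z hz hmem
    rw [hZ, mem_filter] at hz
    obtain ⟨p, -, hp⟩ := mem_image.1 hmem
    exact hpr.2 z hz.1 hz.2 p hp.symm
  have hfR : ∀ z ∈ R, f z = z := fun z hz => by simp only [hf]; rw [if_pos hz]
  have hfZ : ∀ z ∈ Z, f (π' z) = π z := fun z hz => by
    simp only [hf]; rw [if_neg (hZR z hz), Equiv.symm_apply_apply]
  have hinj : Set.InjOn f (R ∪ Z.image π' : Finset _) := by
    intro a ha b hb hab
    rw [mem_coe, mem_union] at ha hb
    rcases ha with ha | ha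
    · rcases hb with hb | hb
      · rwa [hfR a ha, hfR b hb] at hab
      · obtain ⟨z, hz, rfl⟩ := mem_image.1 hb
        rw [hfR a ha, hfZ z hz] at hab
        exact absurd (hab ▸ ha) (hZR' z hz)
    · obtain ⟨z, hz, rfl⟩ := mem_image.1 ha
      rcases hb with hb | hb
      · rw [hfR b hb, hfZ z hz] at hab
        exact absurd (hab ▸ hb) (hZR' z hz)
      · obtain ⟨z', hz', rfl⟩ := mem_image.1 hb
        rw [hfZ z hz, hfZ z' hz'] at hab
        rw [π.injective hab]
  have hfcol : ∀ v ∈ R ∪ Z.image π', col (f v) = col v := by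
    intro v hv
    rw [mem_union] at hv
    rcases hv with hv | hv
    · rw [hfR v hv]
    · obtain ⟨z, hz, rfl⟩ := mem_image.1 hv
      rw [hfZ z hz]
      exact (col_glue g z).trans (col_glue g' z).symm
  have hXc : ∀ c, ((R ∪ Z.image π').filter fun v => col v = c).card + 2 ≤
      Fintype.card (Cls col c) := by
    intro c
    have h1 : ((R ∪ Z.image π').filter fun v => col v = c).card ≤
        (R.filter fun v => col v = c).card + (Z.image π').card := by
      rw [filter_union]
      refine (card_union_le _ _).trans ?_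
      exact Nat.add_le_add_left (card_le_card (filter_subset _ _)) _
    have h2 : (Z.image π').card ≤ S.card := card_image_le.trans (card_le_card (filter_subset _ _))
    have := hRc c
    have := hx c
    omega
  obtain ⟨γ, hγs, hγ⟩ := exists_ext _ f hinj hfcol hXc
  set ρ := glue col γ with hρd
  have hρe : ∀ p, ρ (e p) = e p := by
    intro p
    have hm : e p ∈ R := mem_image_of_mem _ (mem_univ _)
    rw [hγ _ (mem_union_left _ hm), hfR _ hm]
  have hfix : ∀ z ∈ S, glue col (g⁻¹ * γ * g') z = z := by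
    intro z hz
    rw [map_mul, map_mul, map_inv, Perm.mul_apply, Perm.mul_apply, Perm.inv_eq_iff_eq]
    change ρ (π' z) = π z
    by_cases hj : ∃ j, z = e (j, true)
    · obtain ⟨j, rfl⟩ := hj
      have h1 := hpr.1 j hz (decide (blk q M ((j : ℕ) + 1) ∈ A)) (by simp)
      have h2 := hpr'.1 j hz (decide (blk q M ((j : ℕ) + 1) ∈ A)) (by simp)
      rw [h1, h2, hρe]
    · push Not at hj
      have hzZ : z ∈ Z := mem_filter.2 ⟨hz, hj⟩
      rw [hγ _ (mem_union_right _ (mem_image_of_mem _ hzZ)), hfZ z hzZ]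
  have hsgn : ∀ c, Perm.sign ((g⁻¹ * γ * g') c) = 1 := by
    intro c
    rw [Pi.mul_apply, Pi.mul_apply, Pi.inv_apply, Perm.sign_mul, Perm.sign_mul, Perm.sign_inv,
      hsg, hγs, hsg']
    rfl
  obtain ⟨κ, hκ, hκx⟩ := Network.exists_lift x hfix hsgn
  obtain ⟨τ, hτ⟩ := hN γ
  have h1 : (γ * g', σ * κ) ∈ N.aut col := by
    have := (N.aut col).mul_mem hp hκ
    have h2 : ((g, σ) * (g⁻¹ * γ * g', κ) : GG col × Perm N.Node) =
        (γ * g', σ * κ) := by
      rw [Prod.mk_mul_mk]
      congr 1
      group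
    rwa [h2] at this
  have h2 : (γ * g', τ * σ') ∈ N.aut col := (N.aut col).mul_mem hτ hp'
  have h3 : ((1 : GG col), (τ * σ') * (σ * κ)⁻¹) ∈ N.aut col := by
    have := (N.aut col).mul_mem h2 ((N.aut col).inv_mem h1)
    have h4 : ((γ * g', τ * σ') * (γ * g', σ * κ)⁻¹ : GG col × Perm N.Node) =
        (1, (τ * σ') * (σ * κ)⁻¹) := by
      rw [Prod.inv_mk, Prod.mk_mul_mk, mul_inv_cancel]
    rwa [h4] at this
  -- reach of the other placement
  have h5 : N.Reach (gB s t e) (τ (σ' x)) := by
    have := (Network.aut_reach hτ (G := gB s t e) (x := σ' x)).2 h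
    rwa [rename_gB hρe hs ht] at this
  have h6 : N.Reach (gB s t e) (((τ * σ') * (σ * κ)⁻¹) (σ x)) := by
    have h7 : ((τ * σ') * (σ * κ)⁻¹) (σ x) = τ (σ' x) := by
      rw [Perm.mul_apply, Perm.mul_apply]
      congr 2
      rw [Perm.inv_eq_iff_eq, Perm.mul_apply, hκx]
    rw [h7]
    exact h5
  have h8 := Network.aut_reach h3 (G := gB s t e) (x := σ x)
  rw [map_one, map_one, rename_one] at h8
  exact h8.1 h6

variable (col)

/-- the blocks touched by the support of a node -/
noncomputable def blocks (N : Network V) (e : Fin m × Bool → {v // v ∈ D}) (q M : ℕ) (x : N.Node) :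
    Finset ℕ :=
  (univ.filter fun j : Fin m => e (j, true) ∈ N.nsupp col x).image
    fun j : Fin m => blk q M ((j : ℕ) + 1)

variable {col}

lemma mem_blocks {x : N.Node} {i : ℕ} (h : Has e (N.nsupp col x) i) :
    blk q M i ∈ blocks col N e q M x := by
  classical
  obtain ⟨j, rfl, hj⟩ := h
  exact mem_image.2 ⟨j, mem_filter.2 ⟨mem_univ _, hj⟩, rfl⟩

lemma blocks_card (he : Function.Injective e) (x : N.Node) :
    (blocks col N e q M x).card ≤ (N.nsupp col x).card := by
  classical
  refine card_image_le.trans ?_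
  refine card_le_card_of_injOn (fun j => e (j, true)) ?_ ?_
  · intro j hj
    exact (mem_filter.1 hj).2
  · intro j _ j' _ h
    have := he h
    rw [Prod.mk.injEq] at this
    exact this.1

lemma blocks_subset (hM : 1 ≤ M) (x : N.Node) : blocks col N e q M x ⊆ Icc 1 M := by
  classical
  intro b hb
  obtain ⟨j, -, rfl⟩ := mem_image.1 hb
  rw [mem_Icc]
  exact ⟨blk_pos hM (by omega), blk_le⟩

lemma junta_FF (x : N.Node) : Junta (blocks col N e q M x) (FF col N s t e q M x) := by
  intro A A' hA
  have h1 : ∀ i, Has e (N.nsupp col x) i → (blk q M i ∈ A ↔ blk q M i ∈ A') := by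
    intro i hi
    have hb := mem_blocks (q := q) (M := M) hi
    constructor
    · intro h
      have : blk q M i ∈ A ∩ blocks col N e q M x := mem_inter.2 ⟨h, hb⟩
      rw [hA] at this
      exact (mem_inter.1 this).1
    · intro h
      have : blk q M i ∈ A' ∩ blocks col N e q M x := mem_inter.2 ⟨h, hb⟩
      rw [← hA] at this
      exact (mem_inter.1 this).1
  constructor
  · rintro ⟨p, hp, hs, hpr, h⟩
    exact ⟨p, hp, hs, hpr.mono Subset.rfl h1, h⟩
  · rintro ⟨p, hp, hs, hpr, h⟩
    exact ⟨p, hp, hs, hpr.mono Subset.rfl fun i hi => (h1 i hi).symm, h⟩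

lemma gap_card (he : Function.Injective e) {X : Finset {v // v ∈ D}} {a i : ℕ}
    (h : ∀ c, a < c → c ≤ i → Has e X c) : i - a ≤ X.card := by
  classical
  set J : Finset (Fin m) := univ.filter fun j => e (j, true) ∈ X with hJ
  have h1 : J.card ≤ X.card := by
    refine card_le_card_of_injOn (fun j => e (j, true)) ?_ ?_
    · intro j hj
      exact (mem_filter.1 hj).2
    · intro j _ j' _ h
      have := he h
      rw [Prod.mk.injEq] at this
      exact this.1
  have h2 : Ioc a i ⊆ J.image fun j : Fin m => (j : ℕ) + 1 := by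
    intro c hc
    rw [mem_Ioc] at hc
    obtain ⟨j, h3, h4⟩ := h c hc.1 hc.2
    exact mem_image.2 ⟨j, mem_filter.2 ⟨mem_univ _, h4⟩, h3⟩
  have h3 := card_le_card h2
  rw [Nat.card_Ioc] at h3
  exact h3.trans (card_image_le.trans h1)

/-- a closed contact does not change the value -/
theorem FF_step {K k : ℕ} (hN : N.Symm col) (hR : N.Reads D q) (he : Function.Injective e)
    (hec : ∀ j b, col (e (j, b)) = col (e (j, true)))
    (hs : s ∉ D) (ht : t ∉ D) (hM : M = 2 ^ K) (hm : M * (q + 1) ≤ m) (hk : ∀ x, (N.nsupp col x).card ≤ k)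
    (hd : ∀ c, (univ.filter fun p => col (e p) = c).card + (2 * k + q) + 2 ≤
      Fintype.card (Cls col c)) {x y : N.Node} (hxy : N.Step (gA s t e) x y)
    {A : Finset ℕ} (hA : NonCrossing K (blocks col N e q M x ∪ blocks col N e q M y) A) :
    FF col N s t e q M x A ↔ FF col N s t e q M y A := by
  classical
  obtain ⟨c, hc, rfl, rfl⟩ := hxy
  obtain ⟨T, hT, hloc⟩ := hR c
  set x := N.tail c with hx
  set y := N.head c with hy
  set C := blocks col N e q M x ∪ blocks col N e q M y with hC
  set X0 := N.nsupp col x ∪ N.nsupp col y with hX0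
  set XT : Finset {v // v ∈ D} := T.subtype (· ∈ D) with hXT
  have hXTc : XT.card ≤ q := by
    refine le_trans ?_ hT
    rw [hXT, card_subtype]
    exact card_filter_le _ _
  have hX0c : X0.card ≤ 2 * k := by
    refine (card_union_le _ _).trans ?_
    have := hk x
    have := hk y
    omega
  have hpow : 1 ≤ M := by rw [hM]; exact Nat.one_le_two_pow
  have hmq : q + 1 ≤ m := (Nat.le_mul_of_pos_left _ hpow).trans hm
  have hX0C : ∀ i, Has e X0 i → blk q M i ∈ C := by
    rintro i ⟨j, h1, h2⟩
    rw [hX0, mem_union] at h2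
    rcases h2 with h2 | h2
    · exact mem_union_left _ (mem_blocks ⟨j, h1, h2⟩)
    · exact mem_union_right _ (mem_blocks ⟨j, h1, h2⟩)
  set Y : ℕ → Prop := fun i => ∃ a ≤ i, (a = 0 ∨ (Has e X0 a ∧ blk q M a ∈ A)) ∧
    ∀ c, a < c → c ≤ i → (Has e XT c ∧ ¬ Has e X0 c) with hY
  have hY0 : ∀ i, Has e X0 i → (Y i ↔ blk q M i ∈ A) := by
    intro i hi
    constructor
    · rintro ⟨a, hai, ha, hac⟩
      rcases eq_or_lt_of_le hai with h | h
      · subst h
        rcases ha with ha | ha
        · obtain ⟨j, h1, -⟩ := hi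
          omega
        · exact ha.2
      · exact absurd hi (hac i h le_rfl).2
    · intro h
      exact ⟨i, le_rfl, Or.inr ⟨hi, h⟩, fun c h1 h2 => by omega⟩
  have hgap : ∀ a i, (∀ c, a < c → c ≤ i → (Has e XT c ∧ ¬ Has e X0 c)) → i - a ≤ q := by
    intro a i h
    exact (gap_card he fun c h1 h2 => (h c h1 h2).1).trans hXTc
  have hsplit : ∀ i, Has e (X0 ∪ XT) i → Has e X0 i ∨ Has e XT i := by
    rintro i ⟨j, h1, h2⟩
    rcases mem_union.1 h2 with h2 | h2
    · exact Or.inl ⟨j, h1, h2⟩
    · exact Or.inr ⟨j, h1, h2⟩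
  have c0 : Has e (X0 ∪ XT) 1 → Y 1 := by
    intro h
    by_cases h0 : Has e X0 1
    · rw [hY0 1 h0]
      have h1 : blk q M 1 = 1 := blk_one hpow le_rfl (by omega)
      have h2 := hX0C 1 h0
      rw [h1] at h2 ⊢
      exact hA.1 h2
    · have hT1 : Has e XT 1 := (hsplit 1 h).resolve_left h0
      refine ⟨0, by omega, Or.inl rfl, fun c h1 h2 => ?_⟩
      have : c = 1 := by omega
      subst this
      exact ⟨hT1, h0⟩
  have c1 : Has e (X0 ∪ XT) m → ¬ Y m := by
    rintro - ⟨a, ham, ha, hac⟩
    have h1 := hgap a m hac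
    rcases ha with rfl | ⟨ha, haA⟩
    · omega
    · have h2 : blk q M a = 2 ^ K := by rw [blk_last hm h1, hM]
      have h3 := hX0C a ha
      rw [h2] at h3 haA
      exact hA.2.1 h3 haA
  have c2 : ∀ p, Has e (X0 ∪ XT) p → Has e (X0 ∪ XT) (p + 1) → Y p → Y (p + 1) := by
    rintro p - hp' ⟨a, hap, ha, hac⟩
    by_cases h0 : Has e X0 (p + 1)
    · rw [hY0 _ h0]
      have h1 := hgap a p hac
      have hC' := hX0C _ h0
      rcases ha with rfl | ⟨ha, haA⟩
      · have h2 : blk q M (p + 1) = 1 := blk_one hpow (by omega) (by omega)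
        rw [h2] at hC' ⊢
        exact hA.1 hC'
      · rcases blk_succ (q := q) (M := M) hap h1 with h2 | h2
        · rw [h2]; exact haA
        · rw [h2] at hC' ⊢
          exact hA.2.2 _ (hX0C a ha) hC' haA
    · refine ⟨a, by omega, ha, fun c h1 h2 => ?_⟩
      rcases eq_or_lt_of_le h2 with h3 | h3
      · subst h3
        exact ⟨(hsplit _ hp').resolve_left h0, h0⟩
      · exact hac c h1 (by omega)
  obtain ⟨g, hπs, hπ⟩ := exists_pres (m := m) he hec (X0 ∪ XT) Y (by
    intro c
    have := card_union_le X0 XT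
    have := hd c
    omega)
  obtain ⟨σ, hσ⟩ := hN g
  set π := glue col g with hπd
  have hprx : Pres e (N.nsupp col x) (fun i => blk q M i ∈ A) π := by
    refine hπ.mono (subset_union_left.trans subset_union_left) fun i hi => hY0 i ?_
    obtain ⟨j, h1, h2⟩ := hi
    exact ⟨j, h1, mem_union_left _ h2⟩
  have hpry : Pres e (N.nsupp col y) (fun i => blk q M i ∈ A) π := by
    refine hπ.mono (subset_union_right.trans subset_union_left) fun i hi => hY0 i ?_
    obtain ⟨j, h1, h2⟩ := hi
    exact ⟨j, h1, mem_union_right _ h2⟩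
  have hkx := hk x
  have hky := hk y
  rw [FF_iff hN he hs ht (fun c => by have := hd c; omega) (p := (g, σ)) hσ hπs hprx,
    FF_iff hN he hs ht (fun c => by have := hd c; omega) (p := (g, σ)) hσ hπs hpry]
  -- the contact is closed for the ladder
  have hclosed : N.closed c (rename (Perm.ofSubtype π⁻¹) (gB s t e)) := by
    rw [← hloc (gA s t e)]
    · exact hc
    · intro u v hu hv
      have key : ∀ w : V, (w ∈ T ∨ w ∉ D) → ∀ h : w ∈ D, (⟨w, h⟩ : {v // v ∈ D}) ∈ X0 ∪ XT := by
        intro w hw h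
        refine mem_union_right _ ?_
        rw [hXT, mem_subtype]
        rcases hw with hw | hw
        · exact hw
        · exact absurd h hw
      rw [gA_iff he hs ht (by omega) hπ c0 c1 c2 (key u hu) (key v hv), map_inv]
      rfl
  have hstep : N.Step (gB s t e) (σ x) (σ y) := by
    have h1 : N.Step (rename (Perm.ofSubtype π⁻¹) (gB s t e)) x y := ⟨c, hclosed, rfl, rfl⟩
    have h2 := Network.aut_step hσ h1
    simp only at h2
    rw [← rename_mul, ← map_mul, ← hπd, mul_inv_cancel, map_one, rename_one] at h2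
    exact h2
  constructor
  · intro h
    exact h.trans _ _ _ (Relation.EqvGen.rel _ _ hstep)
  · intro h
    exact h.trans _ _ _ (Relation.EqvGen.rel _ _ hstep).symm

/-- a symmetric network with small supports which accepts the path accepts the ladder -/
theorem transfer {k : ℕ} (hN : N.Symm col) (hR : N.Reads D q) (he : Function.Injective e)
    (hec : ∀ j b, col (e (j, b)) = col (e (j, true)))
    (hs : s ∉ D) (ht : t ∉ D) (hm : 2 ^ (2 * k) * (q + 1) ≤ m)
    (hk : ∀ x, (N.nsupp col x).card ≤ k)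
    (hd : ∀ c, (univ.filter fun p => col (e p) = c).card + (2 * k + q) + 2 ≤
      Fintype.card (Cls col c))
    (hA : N.Accepts (gA s t e)) : N.Accepts (gB s t e) := by
  classical
  have key : ∀ x y, Relation.EqvGen (N.Step (gA s t e)) x y →
      ev (2 * k) (FF col N s t e q (2 ^ (2 * k)) x) = ev (2 * k) (FF col N s t e q (2 ^ (2 * k)) y) := by
    intro x y h
    induction h with
    | rel x y h =>
      refine ev_eq (C := blocks col N e q (2 ^ (2 * k)) x ∪ blocks col N e q (2 ^ (2 * k)) y) ?_ ?_ ?_ ?_ ?_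
      · exact union_subset (blocks_subset (col := col) Nat.one_le_two_pow x)
          (blocks_subset (col := col) Nat.one_le_two_pow y)
      · have h1 := card_union_le (blocks col N e q (2 ^ (2 * k)) x) (blocks col N e q (2 ^ (2 * k)) y)
        have h2 := blocks_card (col := col) (N := N) (q := q) (M := 2 ^ (2 * k)) he x
        have h3 := blocks_card (col := col) (N := N) (q := q) (M := 2 ^ (2 * k)) he y
        have h4 := hk x
        have h5 := hk y
        omega
      · exact (junta_FF x).mono subset_union_left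
      · exact (junta_FF y).mono subset_union_right
      · intro A _ hAn
        exact FF_step hN hR he hec hs ht rfl hm hk hd h hAn
    | refl x => rfl
    | symm x y _ ih => exact ih.symm
    | trans x y z _ _ ih1 ih2 => exact ih1.trans ih2
  by_contra hB
  have h1 := key _ _ hA
  have hex : ∀ x : N.Node, ∀ A : Finset ℕ, ∃ p ∈ N.aut col, (∀ c, Perm.sign (p.1 c) = 1) ∧
      Pres e (N.nsupp col x) (fun i => blk q (2 ^ (2 * k)) i ∈ A) (glue col p.1) := by
    intro x A
    have := hk x
    obtain ⟨g, h2, h3⟩ := exists_pres (m := m) he hec (N.nsupp col x)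
      (fun i => blk q (2 ^ (2 * k)) i ∈ A) (fun c => by have := hd c; omega)
    obtain ⟨σ, hσ⟩ := hN g
    exact ⟨(g, σ), hσ, h2, h3⟩
  have h2 : FF col N s t e q (2 ^ (2 * k)) N.source = fun _ => True := by
    funext A
    apply propext
    rw [iff_true]
    obtain ⟨p, hp, h3, h4⟩ := hex N.source A
    refine ⟨p, hp, h3, h4, ?_⟩
    rw [Network.aut_source hp]
    exact Relation.EqvGen.refl _
  have h3 : FF col N s t e q (2 ^ (2 * k)) N.target = fun _ => False := by
    funext A
    apply propext
    rw [iff_false]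
    rintro ⟨p, hp, -, -, h4⟩
    rw [Network.aut_target hp] at h4
    exact hB h4
  rw [h2, h3, ev_true, ev_false] at h1
  exact one_ne_zero h1

end

end Pool.Agent.L5helper18.SN
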