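import Pool.Agent.L5helper42.Sym.Support

/-!
# Switching networks for digraphs, and their automorphisms
-/

set_option autoImplicit false

open Equiv Finset

namespace Pool.Agent.L5helper18.SN

/-- The digraphs on the vertex set `V`: `G u v` says that there is an arc from `u` to `v`. -/
abbrev Graph (V : Type) := V → V → Prop

/-- A switching network whose inputs are the digraphs on `V`: finitely many nodes, two of them
distinguished, and contacts between nodes. The contact `c` is closed for the digraph `G` if
`closed c G` holds. -/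
structure Network (V : Type) where
  /-- the nodes -/
  Node : Type
  /-- there are finitely many nodes -/
  fin : Fintype Node
  /-- the first distinguished node -/
  source : Node
  /-- the second distinguished node -/
  target : Node
  /-- the contacts -/
  Contact : Type
  /-- one end of a contact -/
  tail : Contact → Node
  /-- the other end of a contact -/
  head : Contact → Node
  /-- when is a contact closed -/
  closed : Contact → Graph V → Prop

attribute [instance] Network.fin

variable {V : Type}

/-- some contact from `x` to `y` is closed for `G` -/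
def Network.Step (N : Network V) (G : Graph V) (x y : N.Node) : Prop :=
  ∃ c, N.closed c G ∧ N.tail c = x ∧ N.head c = y

/-- source and target are joined by closed contacts, ignoring directions -/
def Network.Accepts (N : Network V) (G : Graph V) : Prop :=
  Relation.EqvGen (N.Step G) N.source N.target

/-- there is a directed path of closed contacts from the source to the target -/
def Network.DirectedAccepts (N : Network V) (G : Graph V) : Prop :=
  Relation.ReflTransGen (N.Step G) N.source N.target

/-- the number of nodes -/
def Network.size (N : Network V) : ℕ := Fintype.card N.Node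

/-- Each contact is controlled by the subdigraph induced on the complement of `D` and at most `q`
further vertices. -/
def Network.Reads (N : Network V) (D : Finset V) (q : ℕ) : Prop :=
  ∀ c, ∃ T : Finset V, T.card ≤ q ∧ ∀ G H : Graph V,
    (∀ u v, (u ∈ T ∨ u ∉ D) → (v ∈ T ∨ v ∉ D) → (G u v ↔ H u v)) → (N.closed c G ↔ N.closed c H)

/-- the digraph with the vertices renamed -/
def rename (π : Perm V) (G : Graph V) : Graph V := fun u v => G (π.symm u) (π.symm v)

/-- The renaming `π` of the vertices is induced by a permutation of the nodes, which fixes the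
distinguished nodes and maps contacts to contacts. -/
def Network.InvariantUnder (N : Network V) (π : Perm V) : Prop :=
  ∃ σ : Perm N.Node, σ N.source = N.source ∧ σ N.target = N.target ∧
    ∀ c, ∃ c', N.tail c' = σ (N.tail c) ∧ N.head c' = σ (N.head c) ∧
      ∀ G, N.closed c' (rename π G) ↔ N.closed c G

/-! ## The group of automorphisms -/

lemma rename_one (G : Graph V) : rename 1 G = G := rfl

lemma rename_mul (π π' : Perm V) (G : Graph V) : rename (π * π') G = rename π (rename π' G) := rfl

/-- a map which is injective on a small set extends to an even permutation -/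
lemma exists_even_ext {β : Type*} [Fintype β] [DecidableEq β] (X : Finset β) (f : β → β)
    (hf : Set.InjOn f X) (h : X.card + 2 ≤ Fintype.card β) :
    ∃ π : Perm β, Perm.sign π = 1 ∧ ∀ x ∈ X, π x = f x := by
  classical
  set e : {x // x ∈ X} ≃ {y // y ∈ X.image f} :=
    Equiv.ofBijective (fun x => ⟨f x.1, mem_image_of_mem _ x.2⟩) (by
      constructor
      · intro x y hxy
        have := congrArg Subtype.val hxy
        exact Subtype.ext (hf x.2 y.2 this)
      · rintro ⟨y, hy⟩
        obtain ⟨x, hx, rfl⟩ := mem_image.1 hy
        exact ⟨⟨x, hx⟩, rfl⟩) with he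
  set π : Perm β := e.extendSubtype with hπ
  have hπx : ∀ x ∈ X, π x = f x := by
    intro x hx
    rw [hπ, Equiv.extendSubtype_apply_of_mem e x hx]
    rfl
  rcases Int.units_eq_one_or (Perm.sign π) with h1 | h1
  · exact ⟨π, h1, hπx⟩
  · have h2 : 1 < Xᶜ.card := by rw [card_compl]; omega
    obtain ⟨a, ha, b, hb, hab⟩ := Finset.one_lt_card.1 h2
    rw [mem_compl] at ha hb
    refine ⟨π * swap a b, ?_, ?_⟩
    · rw [Perm.sign_mul, h1, Perm.sign_swap hab]
      rfl
    · intro x hx
      rw [Perm.mul_apply, swap_apply_of_ne_of_ne, hπx x hx]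
      · rintro rfl; exact ha hx
      · rintro rfl; exact hb hx

section full

variable {β : Type*} [Fintype β] [DecidableEq β]

omit [Fintype β] in
lemma full_image {P : Subgroup (Perm β)} {X : Finset β} (hX : L5helper42.Sym.Full P X) {τ : Perm β}
    (hτ : ∀ π ∈ P, τ * π * τ⁻¹ ∈ P) : L5helper42.Sym.Full P (X.image τ) := by
  intro a ha b hb c hc hab hac hbc
  rw [mem_image] at ha hb hc
  obtain ⟨a, ha, rfl⟩ := ha
  obtain ⟨b, hb, rfl⟩ := hb
  obtain ⟨c, hc, rfl⟩ := hc
  have h := hX a ha b hb c hc (fun h => hab (by rw [h])) (fun h => hac (by rw [h]))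
    (fun h => hbc (by rw [h]))
  have h2 := hτ _ h
  convert h2 using 1
  rw [swap_apply_apply, swap_apply_apply]
  group

lemma supp_image' {P : Subgroup (Perm β)}
    (hc : 2 * (L5helper42.Sym.supp P).card + 2 ≤ Fintype.card β)
    {τ : Perm β} (hτ : ∀ π ∈ P, τ * π * τ⁻¹ ∈ P) {b : β} (hb : b ∈ L5helper42.Sym.supp P) :
    τ b ∈ L5helper42.Sym.supp P := by
  have h1 : L5helper42.Sym.Full P ((L5helper42.Sym.supp P).image τ)ᶜ := by
    have := full_image (L5helper42.Sym.full_supp P) hτ
    convert this using 1
    ext x
    simp only [mem_compl, mem_image, not_exists, not_and]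
    constructor
    · intro h
      exact ⟨τ⁻¹ x, fun h' => h _ h' (by simp), by simp⟩
    · rintro ⟨y, hy, rfl⟩ z hz hzy
      exact hy (τ.injective hzy ▸ hz)
  have h2 : ((L5helper42.Sym.supp P).image τ).card = (L5helper42.Sym.supp P).card :=
    card_image_of_injective _ τ.injective
  have h3 := L5helper42.Sym.supp_subset h1 (by rw [h2]; omega)
  have h4 : L5helper42.Sym.supp P = (L5helper42.Sym.supp P).image τ :=
    eq_of_subset_of_card_le h3 h2.le
  rw [h4]
  exact mem_image_of_mem _ hb

end full

section

variable [DecidableEq V] {D : Finset V} {ι : Type} [Fintype ι] [DecidableEq ι]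
  (col : {v // v ∈ D} → ι)

/-- a class of vertices -/
abbrev Cls (c : ι) := {v : {v // v ∈ D} // col v = c}

/-- the permutations of the classes -/
abbrev GG := (c : ι) → Perm (Cls col c)

/-- the permutation of all classes together -/
def glue : GG col →* Perm {v // v ∈ D} :=
  ((Equiv.sigmaFiberEquiv col).permCongrHom.toMonoidHom).comp (Perm.sigmaCongrRightHom _)

variable {col}

omit [Fintype ι] [DecidableEq ι] [DecidableEq V] in
lemma glue_apply (g : GG col) (v : {v // v ∈ D}) (c : ι) (h : col v = c) :
    glue col g v = (g c ⟨v, h⟩ : {v // v ∈ D}) := by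
  subst h
  rfl

omit [Fintype ι] [DecidableEq ι] [DecidableEq V] in
lemma col_glue (g : GG col) (v : {v // v ∈ D}) : col (glue col g v) = col v := by
  rw [glue_apply g v _ rfl]
  exact (g (col v) ⟨v, rfl⟩).2

variable (col)

/-- automorphisms over the permutations of the classes -/
def Network.mon (N : Network V) : Submonoid (GG col × Perm N.Node) where
  carrier := {p | p.2 N.source = N.source ∧ p.2 N.target = N.target ∧
    ∀ G x y, N.Step G x y → N.Step (rename (Perm.ofSubtype (glue col p.1)) G) (p.2 x) (p.2 y)}
  mul_mem' := by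
    rintro ⟨π, σ⟩ ⟨π', σ'⟩ ⟨h1, h2, h3⟩ ⟨h1', h2', h3'⟩
    refine ⟨?_, ?_, ?_⟩
    · change σ (σ' N.source) = N.source
      rw [h1', h1]
    · change σ (σ' N.target) = N.target
      rw [h2', h2]
    · intro G x y hxy
      have := h3 _ _ _ (h3' _ _ _ hxy)
      rw [← rename_mul, ← map_mul, ← map_mul] at this
      exact this
  one_mem' := by
    refine ⟨rfl, rfl, fun G x y h => ?_⟩
    change N.Step (rename (Perm.ofSubtype (glue col 1)) G) x y
    rw [map_one, map_one, rename_one]
    exact h

/-- the group of automorphisms over the permutations of the classes -/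
def Network.aut (N : Network V) : Subgroup (GG col × Perm N.Node) where
  toSubmonoid := N.mon col
  inv_mem' := by
    classical
    intro p hp
    have h1 : p⁻¹ = p ^ (orderOf p - 1) := by
      rw [inv_eq_iff_mul_eq_one, ← pow_succ', Nat.sub_add_cancel (orderOf_pos p),
        pow_orderOf_eq_one]
    rw [h1]
    exact (N.mon col).pow_mem hp _

/-- joined to the source -/
def Network.Reach (N : Network V) (G : Graph V) (x : N.Node) : Prop :=
  Relation.EqvGen (N.Step G) N.source x

variable {col}

lemma Network.aut_source {N : Network V} {p : GG col × Perm N.Node} (hp : p ∈ N.aut col) :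
    p.2 N.source = N.source := hp.1

lemma Network.aut_target {N : Network V} {p : GG col × Perm N.Node} (hp : p ∈ N.aut col) :
    p.2 N.target = N.target := hp.2.1

lemma Network.aut_step {N : Network V} {p : GG col × Perm N.Node} (hp : p ∈ N.aut col)
    {G : Graph V} {x y : N.Node} (h : N.Step G x y) :
    N.Step (rename (Perm.ofSubtype (glue col p.1)) G) (p.2 x) (p.2 y) := hp.2.2 G x y h

lemma Network.aut_reach_mp {N : Network V} {p : GG col × Perm N.Node}
    (hp : p ∈ N.aut col) {G : Graph V} {x : N.Node} (h : N.Reach G x) :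
    N.Reach (rename (Perm.ofSubtype (glue col p.1)) G) (p.2 x) := by
  have key : ∀ a b, Relation.EqvGen (N.Step G) a b →
      Relation.EqvGen (N.Step (rename (Perm.ofSubtype (glue col p.1)) G)) (p.2 a) (p.2 b) := by
    intro a b hab
    induction hab with
    | rel a b h => exact Relation.EqvGen.rel _ _ (Network.aut_step hp h)
    | refl a => exact Relation.EqvGen.refl _
    | symm a b _ ih => exact ih.symm
    | trans a b c _ _ ih1 ih2 => exact ih1.trans _ _ _ ih2
  have := key _ _ h
  rw [Network.aut_source hp] at this
  exact this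

lemma Network.aut_reach {N : Network V} {p : GG col × Perm N.Node}
    (hp : p ∈ N.aut col) {G : Graph V} {x : N.Node} :
    N.Reach (rename (Perm.ofSubtype (glue col p.1)) G) (p.2 x) ↔ N.Reach G x := by
  refine ⟨fun h => ?_, Network.aut_reach_mp hp⟩
  have h1 := Network.aut_reach_mp ((N.aut col).inv_mem hp) h
  rw [← rename_mul, ← map_mul, ← map_mul] at h1
  have h2 : p⁻¹.1 * p.1 = 1 := by simp
  have h3 : p⁻¹.2 (p.2 x) = x := by simp
  rw [h2, h3, map_one, map_one, rename_one] at h1
  exact h1

variable (col)

/-- all permutations of the classes are induced by automorphisms -/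
def Network.Symm (N : Network V) : Prop :=
  ∀ g : GG col, ∃ σ : Perm N.Node, (g, σ) ∈ N.aut col

variable {col}

lemma Network.symm_of {N : Network V}
    (hN : ∀ π : Perm V, (∀ v, v ∉ D → π v = v) →
      (∀ v, ∀ h : v ∈ D, ∃ h' : π v ∈ D, col ⟨π v, h'⟩ = col ⟨v, h⟩) → N.InvariantUnder π) :
    N.Symm col := by
  intro g
  obtain ⟨σ, h1, h2, h3⟩ := hN (Perm.ofSubtype (glue col g))
    (fun v hv => Perm.ofSubtype_apply_of_not_mem _ hv) (by
      intro v h
      have h1 : Perm.ofSubtype (glue col g) v = (glue col g ⟨v, h⟩ : V) :=
        Perm.ofSubtype_apply_of_mem _ h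
      have h2 : Perm.ofSubtype (glue col g) v ∈ D := by rw [h1]; exact (glue col g ⟨v, h⟩).2
      refine ⟨h2, ?_⟩
      have h3 : (⟨Perm.ofSubtype (glue col g) v, h2⟩ : {v // v ∈ D}) = glue col g ⟨v, h⟩ :=
        Subtype.ext h1
      rw [h3]
      exact col_glue g _)
  refine ⟨σ, h1, h2, ?_⟩
  rintro G x y ⟨c, hc, rfl, rfl⟩
  obtain ⟨c', h4, h5, h6⟩ := h3 c
  exact ⟨c', (h6 G).2 hc, h4, h5⟩

variable (col)

/-- The permutations which extend to an automorphism fixing the node `x`. -/
def Network.stab (N : Network V) (x : N.Node) : Subgroup (GG col) where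
  carrier := {π | ∃ σ : Perm N.Node, (π, σ) ∈ N.aut col ∧ σ x = x}
  mul_mem' := by
    rintro π π' ⟨σ, h1, h2⟩ ⟨σ', h1', h2'⟩
    exact ⟨σ * σ', (N.aut col).mul_mem h1 h1', by rw [Perm.mul_apply, h2', h2]⟩
  one_mem' := ⟨1, (N.aut col).one_mem, rfl⟩
  inv_mem' := by
    rintro π ⟨σ, h1, h2⟩
    exact ⟨σ⁻¹, (N.aut col).inv_mem h1, by rw [Perm.inv_eq_iff_eq, h2]⟩

/-- The permutations of one class which extend to an automorphism fixing the node `x`. -/
def Network.cstab (N : Network V) (x : N.Node) (c : ι) : Subgroup (Perm (Cls col c)) :=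
  (N.stab col x).comap (MonoidHom.mulSingle (fun c => Perm (Cls col c)) c)

variable {col}

/-- two permutations which move the node to the same place -/
lemma Network.mem_stab_of_eq {N : Network V} {x : N.Node} {g g' : GG col} {σ σ' : Perm N.Node}
    (h : (g, σ) ∈ N.aut col) (h' : (g', σ') ∈ N.aut col) (hx : σ x = σ' x) :
    g⁻¹ * g' ∈ N.stab col x := by
  refine ⟨σ⁻¹ * σ', ?_, ?_⟩
  · exact (N.aut col).mul_mem ((N.aut col).inv_mem (x := (g, σ)) h) (y := (g', σ')) h'
  · rw [Perm.mul_apply, ← hx]
    exact σ.symm_apply_apply x

lemma Network.stab_index_le {N : Network V} (hN : N.Symm col) (x : N.Node) :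
    (N.stab col x).index ≤ N.size := by
  classical
  choose L hL using hN
  have hinj : Function.Injective (fun q : GG col ⧸ N.stab col x => L q.out x) := by
    intro q q' h
    simp only at h
    rw [← q.out_eq', ← q'.out_eq']
    exact QuotientGroup.eq.2 (Network.mem_stab_of_eq (hL _) (hL _) h)
  have := Nat.card_le_card_of_injective _ hinj
  rw [Nat.card_eq_fintype_card (α := N.Node)] at this
  exact this

lemma Network.cstab_index_le {N : Network V} (hN : N.Symm col) (x : N.Node) (c : ι) :
    (N.cstab col x c).index ≤ N.size :=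
  (L5helper42.Sym.index_comap_le _ _).trans (Network.stab_index_le hN x)

variable (col)

/-- The support of a node in a class. -/
noncomputable def Network.csupp (N : Network V) (x : N.Node) (c : ι) : Finset (Cls col c) :=
  L5helper42.Sym.supp (N.cstab col x c)

/-- The support of a node. -/
noncomputable def Network.nsupp (N : Network V) (x : N.Node) : Finset {v // v ∈ D} :=
  univ.filter fun v => (⟨v, rfl⟩ : Cls col (col v)) ∈ N.csupp col x (col v)

variable {col}

lemma Network.mem_nsupp {N : Network V} {x : N.Node} {v : {v // v ∈ D}} {c : ι} (h : col v = c) :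
    v ∈ N.nsupp col x ↔ (⟨v, h⟩ : Cls col c) ∈ N.csupp col x c := by
  subst h
  simp [Network.nsupp]

lemma Network.card_nsupp (N : Network V) (x : N.Node) :
    (N.nsupp col x).card = ∑ c, (N.csupp col x c).card := by
  classical
  rw [card_eq_sum_card_fiberwise (f := col) (t := univ) (fun _ _ => mem_univ _)]
  refine sum_congr rfl fun c _ => ?_
  symm
  refine card_bij (fun v _ => v.1) ?_ ?_ ?_
  · intro v hv
    rw [mem_filter]
    exact ⟨(Network.mem_nsupp v.2).2 hv, v.2⟩
  · intro v _ v' _ h
    exact Subtype.ext h
  · intro v hv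
    rw [mem_filter] at hv
    exact ⟨⟨v, hv.2⟩, (Network.mem_nsupp hv.2).1 hv.1, rfl⟩

lemma Network.csupp_card_le {N : Network V} (hN : N.Symm col) (x : N.Node) (c : ι) :
    (N.csupp col x c).card ≤ 3 * Nat.log 2 (N.size ^ 2) := by
  refine (L5helper42.Sym.supp_card_le _).trans ?_
  have h1 := Network.cstab_index_le hN x c
  have : Nat.log 2 ((N.cstab col x c).index ^ 2) ≤ Nat.log 2 (N.size ^ 2) :=
    Nat.log_mono_right (Nat.pow_le_pow_left h1 2)
  omega

/-- An even permutation which fixes the support of a node pointwise extends to an automorphism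
fixing the node. -/
lemma Network.exists_lift {N : Network V} (x : N.Node) {g : GG col}
    (hg : ∀ b ∈ N.nsupp col x, glue col g b = b) (hs : ∀ c, Perm.sign (g c) = 1) :
    ∃ σ : Perm N.Node, (g, σ) ∈ N.aut col ∧ σ x = x := by
  have : g ∈ N.stab col x := by
    refine Subgroup.pi_mem_of_mulSingle_mem _ fun c => ?_
    change g c ∈ N.cstab col x c
    refine (L5helper42.Sym.full_supp (N.cstab col x c)).mem ?_ (hs c)
    rintro ⟨v, hv⟩ hb
    rw [mem_compl, not_not] at hb
    have h1 := hg v ((Network.mem_nsupp hv).2 hb)
    rw [glue_apply g v c hv] at h1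
    exact Subtype.ext h1
  exact this

/-- a map which is injective on a small set and preserves the classes extends to permutations
of the classes -/
lemma exists_ext (X : Finset {v // v ∈ D}) (f : {v // v ∈ D} → {v // v ∈ D})
    (hf : Set.InjOn f X) (hcol : ∀ v ∈ X, col (f v) = col v)
    (h : ∀ c, (X.filter fun v => col v = c).card + 2 ≤ Fintype.card (Cls col c)) :
    ∃ g : GG col, (∀ c, Perm.sign (g c) = 1) ∧ ∀ v ∈ X, glue col g v = f v := by
  classical
  have key : ∀ c, ∃ π : Perm (Cls col c), Perm.sign π = 1 ∧
      ∀ v : Cls col c, v.1 ∈ X → (π v : {v // v ∈ D}) = f v.1 := by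
    intro c
    obtain ⟨π, h1, h2⟩ := exists_even_ext (X.subtype fun v => col v = c)
      (fun v => if h : v.1 ∈ X then ⟨f v.1, (hcol v.1 h).trans v.2⟩ else v) (by
        intro a ha b hb hab
        rw [mem_coe, mem_subtype] at ha hb
        simp only [ha, hb, dite_true, Subtype.mk.injEq] at hab
        exact Subtype.ext (hf ha hb hab)) (by
        rw [card_subtype]
        exact h c)
    refine ⟨π, h1, fun v hv => ?_⟩
    rw [h2 v (by rw [mem_subtype]; exact hv), dif_pos hv]
  choose g hg1 hg2 using key
  refine ⟨g, hg1, fun v hv => ?_⟩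
  rw [glue_apply g v _ rfl]
  exact hg2 _ ⟨v, rfl⟩ hv

/-- the orbit of a node with a large support is large -/
theorem Network.prod_choose_le {N : Network V} (hN : N.Symm col) (x : N.Node)
    (hc : ∀ c, 2 * (N.csupp col x c).card + 2 ≤ Fintype.card (Cls col c)) :
    ∏ c, (Fintype.card (Cls col c)).choose (N.csupp col x c).card ≤ N.size := by
  classical
  set S := N.csupp col x with hS
  have hex : ∀ A : {A : (c : ι) → Finset (Cls col c) //
      A ∈ Fintype.piFinset fun c => powersetCard (S c).card univ}, ∃ g : GG col,
      ∀ c, (S c).image (g c) = A.1 c := by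
    rintro ⟨A, hA⟩
    rw [Fintype.mem_piFinset] at hA
    have key : ∀ c, ∃ π : Perm (Cls col c), (S c).image π = A c := by
      intro c
      have hAc := hA c
      rw [mem_powersetCard] at hAc
      have heq : (S c).card = (A c).card := hAc.2.symm
      obtain ⟨g⟩ : Nonempty (S c ≃ A c) := by
        rw [← Fintype.card_eq]
        simp [heq]
      obtain ⟨π, -, hπ⟩ := exists_even_ext (S c)
        (fun z => if h : z ∈ S c then (g ⟨z, h⟩ : Cls col c) else z)
        (by
          intro a ha b hb hab
          simp only [mem_coe] at ha hb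
          simp only [ha, hb, dite_true] at hab
          have := g.injective (Subtype.ext hab)
          exact congrArg Subtype.val this) (by have := hc c; omega)
      refine ⟨π, ?_⟩
      have hsub : (S c).image π ⊆ A c := by
        intro y hy
        obtain ⟨z, hz, rfl⟩ := mem_image.1 hy
        rw [hπ z hz]
        simp only [hz, dite_true]
        exact (g ⟨z, hz⟩).2
      refine eq_of_subset_of_card_le hsub ?_
      rw [card_image_of_injective _ π.injective]
      exact heq.ge
    choose g hg using key
    exact ⟨g, hg⟩
  choose P hP using hex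
  have hinj : Function.Injective
      (fun A => (QuotientGroup.mk (P A) : GG col ⧸ N.stab col x)) := by
    intro A A' h
    have hmem : (P A)⁻¹ * P A' ∈ N.stab col x := QuotientGroup.eq.1 h
    have hA : ∀ c, A'.1 c = A.1 c := by
      intro c
      have h1 : ∀ b ∈ S c, ((P A)⁻¹ * P A') c b ∈ S c := by
        intro b hb
        refine supp_image' (hc c) ?_ hb
        intro π hπ
        have h2 : MonoidHom.mulSingle (fun c => Perm (Cls col c)) c
            (((P A)⁻¹ * P A') c * π * (((P A)⁻¹ * P A') c)⁻¹) =
            ((P A)⁻¹ * P A') * MonoidHom.mulSingle (fun c => Perm (Cls col c)) c π *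
              ((P A)⁻¹ * P A')⁻¹ := by
          funext c'
          by_cases hcc : c' = c
          · subst hcc
            simp [MonoidHom.mulSingle_apply]
          · simp [MonoidHom.mulSingle_apply, Pi.mulSingle_eq_of_ne hcc]
        change MonoidHom.mulSingle (fun c => Perm (Cls col c)) c _ ∈ N.stab col x
        rw [h2]
        exact (N.stab col x).mul_mem ((N.stab col x).mul_mem hmem hπ) ((N.stab col x).inv_mem hmem)
      have h2 : (S c).image (P A' c) ⊆ (S c).image (P A c) := by
        intro y hy
        obtain ⟨z, hz, rfl⟩ := mem_image.1 hy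
        refine mem_image.2 ⟨_, h1 z hz, ?_⟩
        change P A c ((P A c)⁻¹ (P A' c z)) = _
        exact (P A c).apply_symm_apply _
      have h3 : (S c).image (P A' c) = (S c).image (P A c) := eq_of_subset_of_card_le h2 (by
        rw [card_image_of_injective _ (P A c).injective,
          card_image_of_injective _ (P A' c).injective])
      rwa [hP, hP] at h3
    exact Subtype.ext (funext fun c => (hA c).symm)
  have h1 := Nat.card_le_card_of_injective _ hinj
  rw [Nat.card_eq_fintype_card, Fintype.card_coe, Fintype.card_piFinset] at h1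
  simp only [card_powersetCard, card_univ] at h1
  exact h1.trans (Network.stab_index_le hN x)

end

end Pool.Agent.L5helper18.SN
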