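import Pool.Agent.L5helper18.SN.Tame

/-!
# Supports and size
-/

set_option autoImplicit false

open Equiv Finset

namespace Pool.Agent.L5helper18.SN

lemma choose_ge {n r j : ℕ} (hr : r * r ≤ n) (hj : 2 * j ≤ r) : r ^ j ≤ n.choose j := by
  rcases Nat.eq_zero_or_pos j with rfl | hj0
  · simp
  have h1 : ((n + 1 - j : ℕ) ^ j : ℕ) ≤ Nat.factorial j * n.choose j := by
    have h := Nat.pow_le_choose (α := ℚ) j n
    rw [div_le_iff₀ (by positivity)] at h
    have h' : (((n + 1 - j : ℕ) ^ j : ℕ) : ℚ) ≤ ((Nat.factorial j * n.choose j : ℕ) : ℚ) := by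
      push_cast
      rw [mul_comm]
      exact_mod_cast h
    exact_mod_cast h'
  have h2 : j * r ≤ n + 1 - j := by
    have h3 : 2 * (j * r) ≤ r * r := by nlinarith
    have h4 : r ≤ r * r := Nat.le_mul_self r
    omega
  have h3 : (j * r) ^ j ≤ Nat.factorial j * n.choose j := (Nat.pow_le_pow_left h2 j).trans h1
  have h4 : Nat.factorial j ≤ j ^ j := Nat.factorial_le_pow j
  have h5 : j ^ j * r ^ j ≤ j ^ j * n.choose j := by
    rw [← mul_pow]
    exact h3.trans (Nat.mul_le_mul_right _ h4)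
  exact Nat.le_of_mul_le_mul_left h5 (by positivity)

variable {V : Type} [DecidableEq V] {D : Finset V} {ι : Type} [Fintype ι] [DecidableEq ι]
  {col : {v // v ∈ D} → ι}

theorem size_ge {N : Network V} (hN : N.Symm col) {x : N.Node} {k n : ℕ}
    (hx : k + 1 ≤ (N.nsupp col x).card) (hn : ∀ c, n ≤ Fintype.card (Cls col c)) (h4 : 4 ≤ n) :
    (Nat.sqrt n) ^ (k + 1) ≤ N.size ∨ 2 ^ (Nat.sqrt n) ≤ N.size ^ 12 := by
  set r := Nat.sqrt n with hr
  have hrr : r * r ≤ n := Nat.sqrt_le n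
  have hr2 : 2 ≤ r := by rw [hr, Nat.le_sqrt]; exact h4
  have hsize : 1 ≤ N.size := Fintype.card_pos_iff.2 ⟨x⟩
  by_cases h : ∀ c, 2 * (N.csupp col x c).card ≤ r
  · left
    have h1 := Network.prod_choose_le hN x (fun c => by
      have := h c
      have := hn c
      nlinarith)
    have h2 : ∏ c, r ^ (N.csupp col x c).card ≤
        ∏ c, (Fintype.card (Cls col c)).choose (N.csupp col x c).card := by
      refine prod_le_prod' fun c _ => choose_ge (hrr.trans (hn c)) (h c)
    rw [prod_pow_eq_pow_sum, ← Network.card_nsupp] at h2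
    exact (Nat.pow_le_pow_right (by omega) hx).trans (h2.trans h1)
  · right
    push Not at h
    obtain ⟨c, hc⟩ := h
    have h1 := Network.csupp_card_le hN x c
    have h2 : 2 ^ Nat.log 2 (N.size ^ 2) ≤ N.size ^ 2 :=
      Nat.pow_log_le_self 2 (by positivity)
    calc 2 ^ r ≤ 2 ^ (Nat.log 2 (N.size ^ 2) * 6) := Nat.pow_le_pow_right (by norm_num) (by omega)
      _ = (2 ^ Nat.log 2 (N.size ^ 2)) ^ 6 := by rw [pow_mul]
      _ ≤ (N.size ^ 2) ^ 6 := Nat.pow_le_pow_left h2 6
      _ = N.size ^ 12 := by rw [← pow_mul]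

end Pool.Agent.L5helper18.SN
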