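import Pool.Agent.L5helper18.SN.Low

/-!
# Connectivity of the path and the ladder
-/

set_option autoImplicit false

open Equiv Finset

namespace Pool.Agent.L5helper18.SN

/-- there is a directed path from `s` to `t` -/
def Connected {V : Type} (G : Graph V) (s t : V) : Prop := Relation.ReflTransGen G s t

/-- there is a directed path with at most `L` arcs from the first to the second vertex -/
def Within {V : Type} (G : Graph V) : ℕ → V → V → Prop
  | 0, u, v => u = v
  | L + 1, u, v => u = v ∨ ∃ w, G u w ∧ Within G L w v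

/-- an acyclic digraph all of whose indegrees and outdegrees are at most 2 -/
def Tame {V : Type} (G : Graph V) : Prop :=
  (∃ r : V → ℕ, ∀ u v, G u v → r u < r v) ∧
    ∀ u, {v | G u v}.encard ≤ 2 ∧ {v | G v u}.encard ≤ 2

lemma Within.mono {V : Type} {G : Graph V} {L L' : ℕ} (hL : L ≤ L') {u v : V}
    (h : Within G L u v) : Within G L' u v := by
  induction L generalizing L' u with
  | zero =>
    have h' : u = v := h
    cases L' with
    | zero => exact h'
    | succ L' => exact Or.inl h'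
  | succ L ih =>
    obtain ⟨L', rfl⟩ : ∃ n, L' = n + 1 := ⟨L' - 1, by omega⟩
    rcases h with h | ⟨w, h1, h2⟩
    · exact Or.inl h
    · exact Or.inr ⟨w, h1, ih (by omega) h2⟩

lemma Within.connected {V : Type} {G : Graph V} {L : ℕ} {u v : V} (h : Within G L u v) :
    Connected G u v := by
  induction L generalizing u with
  | zero =>
    have h' : u = v := h
    rw [h']
    exact Relation.ReflTransGen.refl
  | succ L ih =>
    rcases h with h | ⟨w, h1, h2⟩
    · rw [h]
      exact Relation.ReflTransGen.refl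
    · exact Relation.ReflTransGen.head h1 (ih h2)

section

variable {V : Type} [DecidableEq V] {D : Finset V} {m : ℕ} {s t : V}
  {e : Fin m × Bool → {v // v ∈ D}}

omit [DecidableEq V] in
lemma lab_unique (he : Function.Injective e) (hs : s ∉ D) (ht : t ∉ D) (hst : s ≠ t)
    {v : V} {p p' : ℕ} {b b' : Bool} (h : Lab s t e v p b) (h' : Lab s t e v p' b') :
    p = p' ∧ b = b' := by
  rcases h with ⟨rfl, rfl, rfl⟩ | ⟨rfl, rfl, rfl⟩ | ⟨j, rfl, rfl⟩
  · rcases h' with ⟨-, rfl, rfl⟩ | ⟨h, -, -⟩ | ⟨j, h, -⟩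
    · exact ⟨rfl, rfl⟩
    · exact absurd h hst
    · exact absurd (e (j, b')).2 (h ▸ hs)
  · rcases h' with ⟨h, -, -⟩ | ⟨-, rfl, rfl⟩ | ⟨j, h, -⟩
    · exact absurd h.symm hst
    · exact ⟨rfl, rfl⟩
    · exact absurd (e (j, b')).2 (h ▸ ht)
  · rcases h' with ⟨h, -, -⟩ | ⟨h, -, -⟩ | ⟨j', h, rfl⟩
    · exact absurd (e (j, b)).2 (h ▸ hs)
    · exact absurd (e (j, b)).2 (h ▸ ht)
    · have := he (Subtype.ext h)
      rw [Prod.mk.injEq] at this
      rw [this.1, this.2]
      exact ⟨rfl, rfl⟩

omit [DecidableEq V] in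
lemma lab_inj {v v' : V} {p : ℕ} {b : Bool} (h : Lab s t e v p b)
    (h' : Lab s t e v' p b) : v = v' := by
  rcases h with ⟨rfl, rfl, rfl⟩ | ⟨rfl, rfl, rfl⟩ | ⟨j, rfl, rfl⟩
  · rcases h' with ⟨h, -, -⟩ | ⟨-, h, -⟩ | ⟨j, -, h⟩
    · exact h.symm
    · omega
    · omega
  · rcases h' with ⟨-, h, -⟩ | ⟨h, -, -⟩ | ⟨j, -, h⟩
    · omega
    · exact h.symm
    · have := j.2; omega
  · rcases h' with ⟨-, h, -⟩ | ⟨-, h, -⟩ | ⟨j', h, h2⟩
    · omega
    · have := j.2; omega
    · have : j = j' := Fin.ext (by omega)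
      rw [this, h]

omit [DecidableEq V] in
lemma pos_unique (he : Function.Injective e) (hs : s ∉ D) (ht : t ∉ D) (hst : s ≠ t)
    {v : V} {p p' : ℕ} (h : Pos s t e v p) (h' : Pos s t e v p') : p = p' := by
  rcases h with ⟨rfl, rfl⟩ | ⟨rfl, rfl⟩ | ⟨j, rfl, rfl⟩
  · rcases h' with ⟨-, rfl⟩ | ⟨h, -⟩ | ⟨j, h, -⟩
    · rfl
    · exact absurd h hst
    · exact absurd (e (j, true)).2 (h ▸ hs)
  · rcases h' with ⟨h, -⟩ | ⟨-, rfl⟩ | ⟨j, h, -⟩
    · exact absurd h.symm hst
    · rfl
    · exact absurd (e (j, true)).2 (h ▸ ht)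
  · rcases h' with ⟨h, -⟩ | ⟨h, -⟩ | ⟨j', h, rfl⟩
    · exact absurd (e (j, true)).2 (h ▸ hs)
    · exact absurd (e (j, true)).2 (h ▸ ht)
    · have := he (Subtype.ext h)
      rw [Prod.mk.injEq] at this
      rw [this.1]

omit [DecidableEq V] in
lemma pos_inj {v v' : V} {p : ℕ} (h : Pos s t e v p) (h' : Pos s t e v' p) : v = v' := by
  rcases h with ⟨rfl, rfl⟩ | ⟨rfl, rfl⟩ | ⟨j, rfl, rfl⟩
  · rcases h' with ⟨h, -⟩ | ⟨-, h⟩ | ⟨j, -, h⟩
    · exact h.symm
    · omega
    · omega
  · rcases h' with ⟨-, h⟩ | ⟨h, -⟩ | ⟨j, -, h⟩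
    · omega
    · exact h.symm
    · have := j.2; omega
  · rcases h' with ⟨-, h⟩ | ⟨-, h⟩ | ⟨j', h, h2⟩
    · omega
    · have := j.2; omega
    · have : j = j' := Fin.ext (by omega)
      rw [this, h]

omit [DecidableEq V] in
lemma encard_le_two {A B C : Set V} (h : A ⊆ B ∪ C) (hB : B.Subsingleton) (hC : C.Subsingleton) :
    A.encard ≤ 2 := by
  calc A.encard ≤ (B ∪ C).encard := Set.encard_le_encard h
    _ ≤ B.encard + C.encard := Set.encard_union_le _ _
    _ ≤ 1 + 1 := add_le_add (Set.encard_le_one_iff_subsingleton.2 hB)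
        (Set.encard_le_one_iff_subsingleton.2 hC)
    _ = 2 := by norm_num

omit [DecidableEq V] in
lemma tame_gA (he : Function.Injective e) (hs : s ∉ D) (ht : t ∉ D) (hst : s ≠ t) :
    Tame (gA s t e) := by
  classical
  refine ⟨⟨fun v => if h : ∃ p, Pos s t e v p then h.choose else 0, ?_⟩, ?_⟩
  · rintro u v ⟨p, h1, h2⟩
    have hu : ∃ p, Pos s t e u p := ⟨p, h1⟩
    have hv : ∃ p, Pos s t e v p := ⟨p + 1, h2⟩
    simp only
    rw [dif_pos hu, dif_pos hv, pos_unique he hs ht hst hu.choose_spec h1,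
      pos_unique he hs ht hst hv.choose_spec h2]
    omega
  · intro u
    by_cases hu : ∃ p, Pos s t e u p
    · obtain ⟨p, hp⟩ := hu
      constructor
      · refine encard_le_two (B := {v | Pos s t e v (p + 1)}) (C := ∅) ?_ ?_ Set.subsingleton_empty
        · rintro v ⟨p', h1, h2⟩
          rw [pos_unique he hs ht hst hp h1]
          exact Or.inl h2
        · intro v hv v' hv'
          exact pos_inj hv hv'
      · refine encard_le_two (B := {v | Pos s t e v (p - 1)}) (C := ∅) ?_ ?_ Set.subsingleton_empty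
        · rintro v ⟨p', h1, h2⟩
          rw [pos_unique he hs ht hst hp h2, Nat.add_sub_cancel]
          exact Or.inl h1
        · intro v hv v' hv'
          exact pos_inj hv hv'
    · push Not at hu
      constructor
      · refine encard_le_two (B := ∅) (C := ∅) ?_ Set.subsingleton_empty Set.subsingleton_empty
        rintro v ⟨p', h1, -⟩
        exact absurd h1 (hu _)
      · refine encard_le_two (B := ∅) (C := ∅) ?_ Set.subsingleton_empty Set.subsingleton_empty
        rintro v ⟨p', -, h1⟩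
        exact absurd h1 (hu _)

omit [DecidableEq V] in
lemma tame_gB (he : Function.Injective e) (hs : s ∉ D) (ht : t ∉ D) (hst : s ≠ t) :
    Tame (gB s t e) := by
  classical
  refine ⟨⟨fun v => if h : ∃ p b, Lab s t e v p b then h.choose else 0, ?_⟩, ?_⟩
  · rintro u v ⟨p, b, b', h1, h2, -⟩
    have hu : ∃ p b, Lab s t e u p b := ⟨p, b, h1⟩
    have hv : ∃ p b, Lab s t e v p b := ⟨p + 1, b', h2⟩
    simp only
    obtain ⟨c, hc⟩ := hu.choose_spec
    obtain ⟨c', hc'⟩ := hv.choose_spec
    rw [dif_pos hu, dif_pos hv, (lab_unique he hs ht hst hc h1).1,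
      (lab_unique he hs ht hst hc' h2).1]
    omega
  · intro u
    by_cases hu : ∃ p b, Lab s t e u p b
    · obtain ⟨p, b, hp⟩ := hu
      constructor
      · refine encard_le_two (B := {v | Lab s t e v (p + 1) true})
          (C := {v | Lab s t e v (p + 1) false}) ?_ ?_ ?_
        · rintro v ⟨p', c, c', h1, h2, -⟩
          rw [(lab_unique he hs ht hst hp h1).1]
          rcases c' with _ | _
          · exact Or.inr h2
          · exact Or.inl h2
        · intro v hv v' hv'
          exact lab_inj hv hv'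
        · intro v hv v' hv'
          exact lab_inj hv hv'
      · refine encard_le_two (B := {v | Lab s t e v (p - 1) true})
          (C := {v | Lab s t e v (p - 1) false}) ?_ ?_ ?_
        · rintro v ⟨p', c, c', h1, h2, -⟩
          rw [(lab_unique he hs ht hst hp h2).1, Nat.add_sub_cancel]
          rcases c with _ | _
          · exact Or.inr h1
          · exact Or.inl h1
        · intro v hv v' hv'
          exact lab_inj hv hv'
        · intro v hv v' hv'
          exact lab_inj hv hv'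
    · push Not at hu
      constructor
      · refine encard_le_two (B := ∅) (C := ∅) ?_ Set.subsingleton_empty Set.subsingleton_empty
        rintro v ⟨p', c, c', h1, -, -⟩
        exact absurd h1 (hu _ _)
      · refine encard_le_two (B := ∅) (C := ∅) ?_ Set.subsingleton_empty Set.subsingleton_empty
        rintro v ⟨p', c, c', -, h1, -⟩
        exact absurd h1 (hu _ _)

omit [DecidableEq V] in
/-- the ladder is not connected -/
lemma not_connected_gB (he : Function.Injective e) (hs : s ∉ D) (ht : t ∉ D) (hst : s ≠ t) :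
    ¬ Connected (gB s t e) s t := by
  intro h
  have key : ∀ v, Relation.ReflTransGen (gB s t e) s v → ∃ p, Lab s t e v p true := by
    intro v hv
    induction hv with
    | refl => exact ⟨0, Or.inl ⟨rfl, rfl, rfl⟩⟩
    | tail _ huv ih =>
      obtain ⟨p, hp⟩ := ih
      obtain ⟨p', b, b', h1, h2, h3⟩ := huv
      obtain ⟨-, h4⟩ := lab_unique he hs ht hst hp h1
      have h5 := h3 h4.symm
      rw [h5] at h2
      exact ⟨_, h2⟩
  obtain ⟨p, hp⟩ := key t h
  have h1 : Lab s t e t (m + 1) false := Or.inr (Or.inl ⟨rfl, rfl, rfl⟩)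
  have := (lab_unique he hs ht hst hp h1).2
  exact Bool.noConfusion this

omit [DecidableEq V] in
/-- the path joins the two vertices -/
lemma within_gA : Within (gA s t e) (m + 1) s t := by
  have key : ∀ n, n ≤ m → ∀ v, Pos s t e v (m - n) → Within (gA s t e) (n + 1) v t := by
    intro n
    induction n with
    | zero =>
      intro _ v hv
      right
      exact ⟨t, ⟨m, by simpa using hv, Or.inr (Or.inl ⟨rfl, rfl⟩)⟩, rfl⟩
    | succ n ih =>
      intro hn v hv
      right
      have hlt : m - (n + 1) < m := by omega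
      refine ⟨e (⟨m - (n + 1), hlt⟩, true), ⟨m - (n + 1), hv, ?_⟩, ?_⟩
      · exact Or.inr (Or.inr ⟨⟨m - (n + 1), hlt⟩, rfl, rfl⟩)
      · apply ih (by omega)
        refine Or.inr (Or.inr ⟨⟨m - (n + 1), hlt⟩, rfl, ?_⟩)
        simp only
        omega
  exact key m le_rfl s (Or.inl ⟨rfl, by omega⟩)

end

/-- all arcs lead from some level to the next level -/
def Layered {V : Type} (lev : V → ℕ) (G : Graph V) : Prop := ∀ u v, G u v → lev v = lev u + 1

section

variable {V : Type} {D : Finset V} {m : ℕ} {s t : V} {e : Fin m × Bool → {v // v ∈ D}}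

lemma lev_of_lab {lev : V → ℕ} (h0 : lev s = 0) (h1 : lev t = m + 1)
    (h2 : ∀ j b, lev (e (j, b)) = (j : ℕ) + 1) {v : V} {p : ℕ} {b : Bool}
    (h : Lab s t e v p b) : lev v = p := by
  rcases h with ⟨rfl, rfl, -⟩ | ⟨rfl, rfl, -⟩ | ⟨j, rfl, rfl⟩
  · exact h0
  · exact h1
  · exact h2 j b

lemma lev_of_pos {lev : V → ℕ} (h0 : lev s = 0) (h1 : lev t = m + 1)
    (h2 : ∀ j b, lev (e (j, b)) = (j : ℕ) + 1) {v : V} {p : ℕ}
    (h : Pos s t e v p) : lev v = p := by
  rcases h with ⟨rfl, rfl⟩ | ⟨rfl, rfl⟩ | ⟨j, rfl, rfl⟩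
  · exact h0
  · exact h1
  · exact h2 j true

lemma layered_gA {lev : V → ℕ} (h0 : lev s = 0) (h1 : lev t = m + 1)
    (h2 : ∀ j b, lev (e (j, b)) = (j : ℕ) + 1) : Layered lev (gA s t e) := by
  rintro u v ⟨p, hu, hv⟩
  rw [lev_of_pos h0 h1 h2 hu, lev_of_pos h0 h1 h2 hv]

lemma layered_gB {lev : V → ℕ} (h0 : lev s = 0) (h1 : lev t = m + 1)
    (h2 : ∀ j b, lev (e (j, b)) = (j : ℕ) + 1) : Layered lev (gB s t e) := by
  rintro u v ⟨p, b, b', hu, hv, -⟩
  rw [lev_of_lab h0 h1 h2 hu, lev_of_lab h0 h1 h2 hv]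

end

/-- A symmetric network which separates the path and the ladder has a node with a large support. -/
theorem exists_large {V : Type} [DecidableEq V] {s t : V} {D : Finset V} {N : Network V}
    {ι : Type} [Fintype ι] [DecidableEq ι] {col : {v // v ∈ D} → ι}
    {q k m : ℕ} {e : Fin m × Bool → {v // v ∈ D}} (hs : s ∉ D) (ht : t ∉ D)
    (hN : N.Symm col) (hR : N.Reads D q) (he : Function.Injective e)
    (hec : ∀ j b, col (e (j, b)) = col (e (j, true)))
    (hm : 2 ^ (2 * k) * (q + 1) ≤ m)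
    (hd : ∀ c, (univ.filter fun p => col (e p) = c).card + (2 * k + q) + 2 ≤
      Fintype.card (Cls col c))
    (h1 : N.Accepts (gA s t e)) (h2 : ¬ N.Accepts (gB s t e)) :
    ∃ x, k + 1 ≤ (N.nsupp col x).card := by
  classical
  by_contra hcon
  push Not at hcon
  exact h2 (transfer hN hR he hec hs ht hm (fun x => by have := hcon x; omega) hd h1)

end Pool.Agent.L5helper18.SN
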