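import Pool.Agent.L5helper18.SN.Tame

/-!
# Symmetric networks for reachability
-/

set_option autoImplicit false

open Equiv Finset

namespace Pool.Agent.L5helper18.SN

/-- the directed network with one node for each vertex -/
def dirNet (V : Type) [Fintype V] (s t : V) : Network V where
  Node := V
  fin := inferInstance
  source := s
  target := t
  Contact := V × V
  tail := Prod.fst
  head := Prod.snd
  closed := fun c G => G c.1 c.2

theorem dirNet_spec (V : Type) [Fintype V] (s t : V) :
    (dirNet V s t).size = Fintype.card V ∧ (∀ D, (dirNet V s t).Reads D 2) ∧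
    (∀ π : Perm V, π s = s → π t = t → (dirNet V s t).InvariantUnder π) ∧
    ∀ G, (dirNet V s t).DirectedAccepts G ↔ Connected G s t := by
  classical
  refine ⟨rfl, ?_, ?_, ?_⟩
  · rintro D ⟨u, v⟩
    refine ⟨{u, v}, card_le_two, fun G H h => ?_⟩
    exact h u v (Or.inl (by simp)) (Or.inl (by simp))
  · intro π hs ht
    refine ⟨π, hs, ht, ?_⟩
    rintro ⟨u, v⟩
    refine ⟨(π u, π v), rfl, rfl, fun G => ?_⟩
    change rename π G (π u) (π v) ↔ G u v
    unfold rename
    rw [Equiv.symm_apply_apply, Equiv.symm_apply_apply]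
  · intro G
    have h1 : (dirNet V s t).Step G = G := by
      funext u v
      apply propext
      constructor
      · rintro ⟨⟨a, b⟩, h, rfl, rfl⟩
        exact h
      · intro h
        exact ⟨(u, v), h, rfl, rfl⟩
    unfold Network.DirectedAccepts Connected
    rw [h1]
    rfl

lemma card_small_le (α : Type) [Fintype α] [DecidableEq α] (r : ℕ) :
    Fintype.card {B : Finset α // B.card ≤ r} ≤ (Fintype.card α + 1) ^ r := by
  classical
  set M := Fintype.card α with hM
  have h1 : (univ.filter fun B : Finset α => B.card ≤ r) ⊆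
      (range (r + 1)).biUnion fun i => powersetCard i univ := by
    intro B hB
    rw [mem_filter] at hB
    rw [mem_biUnion]
    exact ⟨B.card, mem_range.2 (by omega), mem_powersetCard.2 ⟨subset_univ _, rfl⟩⟩
  rw [Fintype.card_subtype]
  calc (univ.filter fun B : Finset α => B.card ≤ r).card
      ≤ ((range (r + 1)).biUnion fun i => powersetCard i (univ : Finset α)).card := card_le_card h1
    _ ≤ ∑ i ∈ range (r + 1), (powersetCard i (univ : Finset α)).card := card_biUnion_le
    _ = ∑ i ∈ range (r + 1), M.choose i := by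
        refine sum_congr rfl fun i _ => ?_
        rw [card_powersetCard, card_univ]
    _ ≤ ∑ i ∈ range (r + 1), M ^ i * 1 ^ (r - i) * r.choose i := by
        refine sum_le_sum fun i hi => ?_
        rw [mem_range] at hi
        rw [one_pow, mul_one]
        have h2 : 1 ≤ r.choose i := Nat.choose_pos (by omega)
        calc M.choose i ≤ M ^ i := Nat.choose_le_pow _ _
          _ = M ^ i * 1 := (mul_one _).symm
          _ ≤ _ := Nat.mul_le_mul_left _ h2
    _ = (M + 1) ^ r := by
        rw [add_pow]
        simp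

section

variable (V : Type) [Fintype V] [DecidableEq V] (s t : V) (h : ℕ)

/-- configurations of at most `h + 1` pebbles, each of them on a position and a vertex -/
abbrev PNode := {B : Finset (Fin (2 ^ h + 1) × V) // B.card ≤ h + 1}

/-- the undirected pebbling network -/
def pebNet : Network V where
  Node := PNode V h
  fin := inferInstance
  source := ⟨∅, by simp⟩
  target := ⟨{(Fin.last _, t)}, by simp⟩
  Contact := {c : PNode V h × PNode V h × Fin (2 ^ h) × V × V //
    c.2.1.1 = insert (c.2.2.1.succ, c.2.2.2.2) c.1.1 ∧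
      ((c.2.2.1.castSucc, c.2.2.2.1) ∈ c.1.1 ∨ ((c.2.2.1 : ℕ) = 0 ∧ c.2.2.2.1 = s))}
  tail := fun c => c.1.1
  head := fun c => c.1.2.1
  closed := fun c G => c.1.2.2.2.1 = c.1.2.2.2.2 ∨ G c.1.2.2.2.1 c.1.2.2.2.2

lemma pebNet_size : (pebNet V s t h).size ≤ ((2 ^ h + 1) * Fintype.card V + 1) ^ (h + 1) := by
  have := card_small_le (Fin (2 ^ h + 1) × V) (h + 1)
  rw [Fintype.card_prod, Fintype.card_fin] at this
  exact this

lemma pebNet_reads (D : Finset V) : (pebNet V s t h).Reads D 2 := by
  rintro ⟨⟨B, B', p, u, v⟩, hc⟩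
  refine ⟨{u, v}, card_le_two, fun G H hGH => ?_⟩
  change (u = v ∨ G u v) ↔ (u = v ∨ H u v)
  rw [hGH u v (Or.inl (by simp)) (Or.inl (by simp))]

lemma pebNet_invariant (π : Perm V) (hs : π s = s) (ht : π t = t) :
    (pebNet V s t h).InvariantUnder π := by
  set ε : Fin (2 ^ h + 1) × V ≃ Fin (2 ^ h + 1) × V := (Equiv.refl _).prodCongr π with hε
  have hmem : ∀ (B : Finset (Fin (2 ^ h + 1) × V)) (x : Fin (2 ^ h + 1)) (w : V),
      (x, π w) ∈ Equiv.finsetCongr ε B ↔ (x, w) ∈ B := by
    intro B x w
    rw [Equiv.finsetCongr_apply, mem_map]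
    constructor
    · rintro ⟨⟨x', w'⟩, h1, h2⟩
      simp only [hε, Equiv.coe_toEmbedding, Equiv.prodCongr_apply, Equiv.coe_refl, Prod.map_apply,
        id_eq, Prod.mk.injEq, EmbeddingLike.apply_eq_iff_eq] at h2
      rw [← h2.1, ← h2.2]
      exact h1
    · intro h1
      exact ⟨(x, w), h1, by simp [hε]⟩
  set σ : Perm (PNode V h) := (Equiv.finsetCongr ε).subtypeEquiv (fun B => by
    rw [Equiv.finsetCongr_apply, card_map]) with hσ
  have hσ1 : ∀ B : PNode V h, (σ B).1 = Equiv.finsetCongr ε B.1 := fun B => rfl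
  have hins : ∀ (B : Finset (Fin (2 ^ h + 1) × V)) (x : Fin (2 ^ h + 1)) (w : V),
      Equiv.finsetCongr ε (insert (x, w) B) = insert (x, π w) (Equiv.finsetCongr ε B) := by
    intro B x w
    rw [Equiv.finsetCongr_apply, Equiv.finsetCongr_apply, map_insert]
    rfl
  refine ⟨σ, ?_, ?_, ?_⟩
  · apply Subtype.ext
    change Equiv.finsetCongr ε ∅ = ∅
    rfl
  · apply Subtype.ext
    change Equiv.finsetCongr ε {(Fin.last _, t)} = {(Fin.last _, t)}
    rw [Equiv.finsetCongr_apply, map_singleton]
    change {(Fin.last _, π t)} = _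
    rw [ht]
  · rintro ⟨⟨B, B', p, u, v⟩, h1, h2⟩
    simp only at h1 h2
    refine ⟨⟨⟨σ B, σ B', p, π u, π v⟩, ?_, ?_⟩, rfl, rfl, fun G => ?_⟩
    · simp only
      rw [hσ1, hσ1, h1, hins]
    · simp only
      rcases h2 with h2 | h2
      · left
        rw [hσ1, hmem]
        exact h2
      · right
        exact ⟨h2.1, by rw [h2.2, hs]⟩
    · change (π u = π v ∨ rename π G (π u) (π v)) ↔ (u = v ∨ G u v)
      unfold rename
      rw [Equiv.symm_apply_apply, Equiv.symm_apply_apply, EmbeddingLike.apply_eq_iff_eq]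

lemma pebNet_sound (G : Graph V) (hG : (pebNet V s t h).Accepts G) : Connected G s t := by
  set Inv : PNode V h → Prop := fun B => ∀ x ∈ B.1, Connected G s x.2 with hInv
  have hstep : ∀ x y : PNode V h, (pebNet V s t h).Step G x y → (Inv x ↔ Inv y) := by
    rintro x y ⟨⟨⟨B, B', p, u, v⟩, h1, h2⟩, hc, rfl, rfl⟩
    simp only at h1 h2
    change Inv B ↔ Inv B'
    have hc' : u = v ∨ G u v := hc
    constructor
    · intro hB x hx
      rw [h1, mem_insert] at hx
      rcases hx with rfl | hx
      · have hu : Connected G s u := by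
          rcases h2 with h2 | h2
          · exact hB _ h2
          · rw [h2.2]
            exact Relation.ReflTransGen.refl
        rcases hc' with rfl | hc'
        · exact hu
        · exact hu.tail hc'
      · exact hB x hx
    · intro hB x hx
      exact hB x (by rw [h1]; exact mem_insert_of_mem hx)
  have key : ∀ x y : PNode V h, Relation.EqvGen ((pebNet V s t h).Step G) x y →
      (Inv x ↔ Inv y) := by
    intro x y hxy
    induction hxy with
    | rel x y h => exact hstep x y h
    | refl x => exact Iff.rfl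
    | symm x y _ ih => exact ih.symm
    | trans x y z _ _ ih1 ih2 => exact ih1.trans ih2
  have h1 : Inv (pebNet V s t h).source := by
    intro x hx
    exact absurd hx (by simp [pebNet])
  have h2 := (key _ _ hG).1 h1
  exact h2 (Fin.last _, t) (by simp [pebNet])

lemma exists_walk {V : Type} {G : Graph V} {L : ℕ} {u v : V} (hw : Within G L u v) :
    ∃ w : ℕ → V, w 0 = u ∧ w L = v ∧ ∀ i < L, w i = w (i + 1) ∨ G (w i) (w (i + 1)) := by
  induction L generalizing u with
  | zero =>
    have h' : u = v := hw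
    exact ⟨fun _ => u, rfl, h', fun i hi => absurd hi (by omega)⟩
  | succ L ih =>
    rcases hw with h | ⟨x, h1, h2⟩
    · exact ⟨fun _ => u, rfl, h, fun i _ => Or.inl rfl⟩
    · obtain ⟨w, hw0, hwL, hwi⟩ := ih h2
      refine ⟨fun i => if i = 0 then u else w (i - 1), by simp, by simp [hwL], ?_⟩
      intro i hi
      rcases Nat.eq_zero_or_pos i with rfl | hi0
      · right
        simpa [hw0] using h1
      · have h3 := hwi (i - 1) (by omega)
        have h4 : i - 1 + 1 = i := by omega
        rw [h4] at h3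
        simp only [show i ≠ 0 by omega, if_false, show i + 1 ≠ 0 by omega, Nat.add_sub_cancel]
        exact h3

lemma pebNet_complete (G : Graph V) (hG : Within G (2 ^ h) s t) :
    (pebNet V s t h).Accepts G := by
  obtain ⟨w, hw0, hwL, hwi⟩ := exists_walk hG
  set pt : ℕ → Fin (2 ^ h + 1) × V := fun i => (Fin.ofNat _ i, w i) with hpt
  have hval : ∀ i, i ≤ 2 ^ h → ((Fin.ofNat (2 ^ h + 1) i : Fin (2 ^ h + 1)) : ℕ) = i := by
    intro i hi
    simp only [Fin.ofNat, Nat.mod_eq_of_lt (show i < 2 ^ h + 1 by omega)]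
  have key : ∀ j a, a + 2 ^ j ≤ 2 ^ h → ∀ B B' : PNode V h, (a = 0 ∨ pt a ∈ B.1) →
      B'.1 = insert (pt (a + 2 ^ j)) B.1 → B.1.card + j + 1 ≤ h + 1 →
      Relation.EqvGen ((pebNet V s t h).Step G) B B' := by
    intro j
    induction j with
    | zero =>
      intro a ha B B' hB hB' _
      rw [pow_zero] at ha hB'
      refine Relation.EqvGen.rel _ _ ⟨⟨⟨B, B', ⟨a, by omega⟩, w a, w (a + 1)⟩, ?_, ?_⟩, ?_, rfl, rfl⟩
      · simp only
        rw [hB']
        congr 1
        simp only [hpt, Prod.mk.injEq, and_true]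
        apply Fin.ext
        rw [hval _ ha]
        simp
      · simp only
        rcases hB with rfl | hB
        · exact Or.inr ⟨rfl, hw0⟩
        · left
          convert hB using 1
          simp only [hpt, Prod.mk.injEq, and_true]
          apply Fin.ext
          rw [hval _ (by omega)]
          simp
      · exact hwi a (by omega)
    | succ j ih =>
      intro a ha B B' hB hB' hcard
      have hpow : 2 ^ (j + 1) = 2 ^ j + 2 ^ j := by rw [pow_succ]; ring
      have hpos : 0 < 2 ^ j := by positivity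
      obtain ⟨B0, hB0⟩ := B
      simp only at hB hB' hcard
      have hc1 : (insert (pt (a + 2 ^ j)) B0).card ≤ B0.card + 1 := card_insert_le _ _
      have hc2 : (insert (pt (a + 2 ^ (j + 1))) B0).card ≤ B0.card + 1 := card_insert_le _ _
      have hc3 : (insert (pt (a + 2 ^ (j + 1))) (insert (pt (a + 2 ^ j)) B0)).card ≤
          (insert (pt (a + 2 ^ j)) B0).card + 1 := card_insert_le _ _
      have hc4 : (insert (pt (a + 2 ^ (j + 1))) (insert (pt (a + 2 ^ j)) B0)).card ≤ h + 1 := by
        omega
      have hc5 : (insert (pt (a + 2 ^ j)) B0).card ≤ h + 1 := by omega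
      obtain ⟨B1, hB1⟩ : ∃ B1 : PNode V h, B1.1 = insert (pt (a + 2 ^ j)) B0 := ⟨⟨_, hc5⟩, rfl⟩
      obtain ⟨B2, hB2⟩ : ∃ B2 : PNode V h,
          B2.1 = insert (pt (a + 2 ^ (j + 1))) (insert (pt (a + 2 ^ j)) B0) := ⟨⟨_, hc4⟩, rfl⟩
      have e1 : Relation.EqvGen ((pebNet V s t h).Step G) ⟨B0, hB0⟩ B1 :=
        ih a (by omega) ⟨B0, hB0⟩ B1 hB hB1 (by simp only; omega)
      have e2 : Relation.EqvGen ((pebNet V s t h).Step G) B1 B2 := by
        refine ih (a + 2 ^ j) (by omega) B1 B2 (Or.inr ?_) ?_ ?_
        · rw [hB1]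
          exact mem_insert_self _ _
        · rw [hB1, hB2, hpow, add_assoc]
        · rw [hB1]
          omega
      have e3 : Relation.EqvGen ((pebNet V s t h).Step G) B' B2 := by
        refine ih a (by omega) B' B2 ?_ ?_ ?_
        · rcases hB with h1 | h1
          · exact Or.inl h1
          · right
            rw [hB']
            exact mem_insert_of_mem h1
        · rw [hB', hB2, insert_comm]
        · rw [hB']
          omega
      exact (e1.trans _ _ _ e2).trans _ _ _ e3.symm
  refine key h 0 (by omega) _ _ (Or.inl rfl) ?_ ?_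
  · change {(Fin.last _, t)} = insert (pt (0 + 2 ^ h)) ∅
    rw [zero_add, insert_empty_eq]
    congr 1
    simp only [hpt, hwL, Prod.mk.injEq, and_true]
    apply Fin.ext
    rw [hval _ le_rfl]
    rfl
  · change (∅ : Finset (Fin (2 ^ h + 1) × V)).card + h + 1 ≤ h + 1
    simp

end

/-- the symmetric undirected network -/
theorem upper (V : Type) [Fintype V] (s t : V) (L : ℕ) (hL : 1 ≤ L) :
    ∃ N : Network V, N.size ≤ (4 * L * Fintype.card V) ^ (Nat.log 2 L + 2) ∧
      (∀ D, N.Reads D 2) ∧ (∀ π : Perm V, π s = s → π t = t → N.InvariantUnder π) ∧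
      (∀ G, Within G L s t → N.Accepts G) ∧ (∀ G, N.Accepts G → Connected G s t) := by
  classical
  set h := Nat.log 2 L + 1 with hh
  have h1 : L < 2 ^ h := Nat.lt_pow_succ_log_self (by norm_num) L
  have h2 : 2 ^ h ≤ 2 * L := by
    rw [hh, pow_succ, mul_comm]
    exact Nat.mul_le_mul_left _ (Nat.pow_log_le_self 2 (by omega))
  refine ⟨pebNet V s t h, ?_, pebNet_reads V s t h, pebNet_invariant V s t h, ?_,
    pebNet_sound V s t h⟩
  · refine (pebNet_size V s t h).trans ?_
    rw [hh]
    apply Nat.pow_le_pow_left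
    have hV : 1 ≤ Fintype.card V := Fintype.card_pos_iff.2 ⟨s⟩
    rw [← hh]
    nlinarith
  · intro G hG
    exact pebNet_complete V s t h G (hG.mono h1.le)

end Pool.Agent.L5helper18.SN
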